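import Pool.Agent.X13.UC.Form

/-!
# The values at powers of seven, and the prime 5
-/

namespace Pool.Agent.X13.UC

open Finset

/-- `(2+√-3)^k = X + Y √-3` -/
def bb : ℕ → ℤ × ℤ
  | 0 => (1, 0)
  | k + 1 => (2 * (bb k).1 - 3 * (bb k).2, (bb k).1 + 2 * (bb k).2)

theorem bb_norm (k : ℕ) : (bb k).1 ^ 2 + 3 * (bb k).2 ^ 2 = 7 ^ k := by
  induction k with
  | zero => simp [bb]
  | succ k ih =>
    rw [pow_succ (7 : ℤ) k, ← ih]
    simp only [bb]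
    ring

theorem bb_mod7 (k : ℕ) : (7 : ℤ) ∣ (bb (k + 1)).1 - 2 * (bb (k + 1)).2 ∧ ¬ (7 : ℤ) ∣ (bb (k + 1)).2 := by
  induction k with
  | zero => simp [bb]
  | succ k ih =>
    obtain ⟨h1, h2⟩ := ih
    rw [bb]
    simp only
    constructor
    · omega
    · omega

theorem bb_mod3 (k : ℕ) : (bb (2 * k + 1)).1 % 3 = 2 := by
  induction k with
  | zero => simp [bb]
  | succ k ih =>
    rw [show 2 * (k + 1) + 1 = 2 * k + 1 + 1 + 1 by ring, bb, bb]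
    simp only
    omega

theorem prim_aux (k : ℕ) : ∀ x y : ℤ, x ^ 2 + 3 * y ^ 2 = 7 ^ k →
    (1 ≤ k → (7 : ℤ) ∣ x - 2 * y ∧ ¬ (7 : ℤ) ∣ y) →
    (x = (bb k).1 ∧ y = (bb k).2) ∨ (x = -(bb k).1 ∧ y = -(bb k).2) := by
  induction k with
  | zero =>
    intro x y h _
    rw [pow_zero] at h
    have hy : y = 0 := by
      by_contra hy
      have : 0 < y ^ 2 := by positivity
      nlinarith [sq_nonneg x]
    subst hy
    have hx : x ^ 2 = 1 := by linarith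
    simp only [bb, neg_zero, and_true]
    have hx' : (x - 1) * (x + 1) = 0 := by linear_combination hx
    rcases mul_eq_zero.mp hx' with h1 | h1
    · left; linarith
    · right; linarith
  | succ k ih =>
    intro x y h hk
    obtain ⟨⟨a, ha⟩, h2⟩ := hk (by omega)
    -- x = 2 y + 7 a ; y' = (2y - x)/7 = -a ; x' = (2x+3y)/7 = y + 2a
    have hx : x = 2 * y + 7 * a := by linarith
    have h3 : (y + 2 * a) ^ 2 + 3 * (-a) ^ 2 = 7 ^ k := by
      have : 7 * ((y + 2 * a) ^ 2 + 3 * (-a) ^ 2) = 7 * (7 : ℤ) ^ k := by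
        rw [← pow_succ', ← h, hx]; ring
      exact mul_left_cancel₀ (by norm_num) this
    have h4 : 1 ≤ k → (7 : ℤ) ∣ (y + 2 * a) - 2 * (-a) ∧ ¬ (7 : ℤ) ∣ -a := by
      intro hk1
      have h5 : (7 : ℤ) ∣ ((y + 2 * a) - 2 * (-a)) * y := by
        have : ((y + 2 * a) - 2 * (-a)) * y = ((y + 2 * a) ^ 2 + 3 * (-a) ^ 2) - 7 * a ^ 2 := by ring
        rw [this, h3]
        exact dvd_sub (dvd_pow_self _ (by omega)) (Dvd.intro _ rfl)
      have h6 : (7 : ℤ) ∣ (y + 2 * a) - 2 * (-a) := by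
        rcases (by norm_num : Prime (7 : ℤ)).dvd_or_dvd h5 with h | h
        · exact h
        · exact absurd h h2
      exact ⟨h6, by omega⟩
    rcases ih _ _ h3 h4 with ⟨h5, h6⟩ | ⟨h5, h6⟩
    · left
      simp only [bb]
      constructor <;> [rw [hx]; skip] <;> linarith
    · right
      simp only [bb]
      constructor <;> [rw [hx]; skip] <;> linarith

theorem prim (k : ℕ) (x y : ℤ) (h : x ^ 2 + 3 * y ^ 2 = 7 ^ (k + 1)) (h7 : ¬ (7 : ℤ) ∣ y) (hy : 0 < y) :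
    (x = (bb (k + 1)).1 ∨ x = -(bb (k + 1)).1) ∧ y = |(bb (k + 1)).2| := by
  have h1 : (7 : ℤ) ∣ (x - 2 * y) * (x + 2 * y) := by
    have : (x - 2 * y) * (x + 2 * y) = (x ^ 2 + 3 * y ^ 2) - 7 * y ^ 2 := by ring
    rw [this, h]
    exact dvd_sub (dvd_pow_self _ (by omega)) (Dvd.intro _ rfl)
  rcases (by norm_num : Prime (7 : ℤ)).dvd_or_dvd h1 with h2 | h2
  · rcases prim_aux (k + 1) x y h (fun _ => ⟨h2, h7⟩) with ⟨h3, h4⟩ | ⟨h3, h4⟩
    · exact ⟨Or.inl h3, by rw [← h4, abs_of_pos hy]⟩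
    · exact ⟨Or.inr h3, by rw [show (bb (k + 1)).2 = -y by rw [h4]; ring, abs_neg, abs_of_pos hy]⟩
  · have h5 : x ^ 2 + 3 * (-y) ^ 2 = 7 ^ (k + 1) := by rw [neg_sq]; exact h
    rcases prim_aux (k + 1) x (-y) h5 (fun _ => ⟨by rw [mul_neg, sub_neg_eq_add]; exact h2,
      by rwa [dvd_neg]⟩) with ⟨h3, h4⟩ | ⟨h3, h4⟩
    · exact ⟨Or.inl h3, by rw [← h4, abs_neg, abs_of_pos hy]⟩
    · exact ⟨Or.inr h3, by rw [show (bb (k + 1)).2 = y by linarith, abs_of_pos hy]⟩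

/-- the sum over solutions -/
noncomputable def TT7 (k : ℕ) : ℤ := ∑ p ∈ Sol (7 ^ k), wf p

/-- contribution of the primitive solution -/
def vv (k : ℕ) : ℤ :=
  if (bb k).2 ^ 2 ≤ (bb k).1 ^ 2 ∧ (bb k).1 ^ 2 < 9 * (bb k).2 ^ 2 then
    (if 0 < (bb k).1 then 1 else -1) else 0

theorem chi_scale7 (x : ℤ) : chi (7 * x) = chi x := by
  unfold chi
  have : 7 * x % 3 = x % 3 := by omega
  rw [this]

theorem wf_scale7 (x y : ℤ) : wf (7 * x, 7 * y) = wf (x, y) := by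
  unfold wf
  simp only
  rw [chi_scale7]
  have : (-3 * (7 * y) < 7 * x ∧ 7 * x < 7 * y) ↔ (-3 * y < x ∧ x < y) := by omega
  simp only [this]

theorem chi_scale5 (x : ℤ) : chi (5 * x) = -chi x := by
  unfold chi
  rcases (by omega : x % 3 = 0 ∨ x % 3 = 1 ∨ x % 3 = 2) with h | h | h
  · have : 5 * x % 3 = 0 := by omega
    rw [this, h]; norm_num
  · have : 5 * x % 3 = 2 := by omega
    rw [this, h]; norm_num
  · have : 5 * x % 3 = 1 := by omega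
    rw [this, h]; norm_num

theorem wf_scale5 (x y : ℤ) : wf (5 * x, 5 * y) = -wf (x, y) := by
  unfold wf
  simp only
  rw [chi_scale5]
  have : (-3 * (5 * y) < 5 * x ∧ 5 * x < 5 * y) ↔ (-3 * y < x ∧ x < y) := by omega
  simp only [this]
  split_ifs <;> simp

theorem sum5 (V : ℤ) : ∑ p ∈ Sol (25 * V), wf p = -∑ p ∈ Sol V, wf p := by
  rw [← sum_neg_distrib]
  symm
  refine sum_bij (fun p _ => (5 * p.1, 5 * p.2)) ?_ ?_ ?_ ?_
  · rintro ⟨x, y⟩ hp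
    rw [mem_Sol] at hp ⊢
    obtain ⟨h1, h2⟩ := hp
    refine ⟨by omega, ?_⟩
    simp only
    linear_combination 25 * h2
  · rintro ⟨x, y⟩ _ ⟨x', y'⟩ _ h
    simp only [Prod.mk.injEq] at h ⊢
    omega
  · rintro ⟨x, y⟩ hp
    rw [mem_Sol] at hp
    obtain ⟨h1, h2⟩ := hp
    have h3 : (x ^ 2 + 3 * y ^ 2) % 5 = 0 := by rw [h2]; omega
    have hx : x % 5 = 0 ∧ y % 5 = 0 := by
      have hx2 : x % 5 = 0 ∨ x % 5 = 1 ∨ x % 5 = 2 ∨ x % 5 = 3 ∨ x % 5 = 4 := by omega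
      have hy2 : y % 5 = 0 ∨ y % 5 = 1 ∨ y % 5 = 2 ∨ y % 5 = 3 ∨ y % 5 = 4 := by omega
      rcases hx2 with h | h | h | h | h <;> rcases hy2 with h' | h' | h' | h' | h' <;>
        simp [pow_two, Int.add_emod, Int.mul_emod, h, h'] at h3 ⊢
    obtain ⟨a, rfl⟩ : ∃ a, x = 5 * a := ⟨x / 5, by omega⟩
    obtain ⟨b, rfl⟩ : ∃ b, y = 5 * b := ⟨y / 5, by omega⟩
    refine ⟨(a, b), ?_, rfl⟩
    rw [mem_Sol]
    refine ⟨by omega, ?_⟩
    have : 25 * (a ^ 2 + 3 * b ^ 2) = 25 * V := by rw [← h2]; ring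
    exact mul_left_cancel₀ (by norm_num) this
  · rintro ⟨x, y⟩ _
    exact (wf_scale5 x y).symm

theorem cc_five (n : ℕ) : cc (25 * n + 28) = -cc n := by
  rw [cc_eq, cc_eq, ← sum5]
  congr 2
  push_cast
  ring

/-- value of the primitive part -/
theorem vv_eq (k : ℕ) : wf ((bb (2 * k + 1)).1, |(bb (2 * k + 1)).2|)
    + wf (-(bb (2 * k + 1)).1, |(bb (2 * k + 1)).2|) = vv (2 * k + 1) := by
  have h3 := bb_mod3 k
  have h7 := (bb_mod7 (2 * k)).2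
  unfold vv wf
  simp only
  generalize (bb (2 * k + 1)).1 = x at *
  generalize hy : (bb (2 * k + 1)).2 = y at *
  have c1 : chi x = -1 := by
    unfold chi; rw [h3]; norm_num
  have c2 : chi (-x) = 1 := by
    unfold chi
    have : (-x) % 3 = 1 := by omega
    rw [this]; norm_num
  rw [c1, c2]
  have e1 : y ^ 2 = |y| ^ 2 := (sq_abs y).symm
  rw [e1]
  have hpos : 0 < |y| := abs_pos.mpr (by rintro rfl; exact h7 (dvd_zero _))
  generalize |y| = z at *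
  have hx0 : x ≠ 0 := by rintro rfl; omega
  rcases lt_or_gt_of_ne hx0 with hx | hx
  · -- negative
    have i1 : z ^ 2 ≤ x ^ 2 ↔ z ≤ -x := by
      rw [show x ^ 2 = (-x) ^ 2 by ring]
      exact pow_le_pow_iff_left₀ hpos.le (by omega) (by norm_num)
    have i2 : x ^ 2 < 9 * z ^ 2 ↔ -x < 3 * z := by
      rw [show x ^ 2 = (-x) ^ 2 by ring, show 9 * z ^ 2 = (3 * z) ^ 2 by ring]
      exact pow_lt_pow_iff_left₀ (by omega) (by omega) (by norm_num)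
    simp only [i1, i2]
    split_ifs <;> omega
  · have i1 : z ^ 2 ≤ x ^ 2 ↔ z ≤ x :=
      pow_le_pow_iff_left₀ hpos.le hx.le (by norm_num)
    have i2 : x ^ 2 < 9 * z ^ 2 ↔ x < 3 * z := by
      rw [show 9 * z ^ 2 = (3 * z) ^ 2 by ring]
      exact pow_lt_pow_iff_left₀ hx.le (by omega) (by norm_num)
    simp only [i1, i2]
    split_ifs <;> omega

theorem prim_sum (k : ℕ) : ∑ p ∈ (Sol (7 ^ (2 * k + 1))).filter (fun p => ¬ (7 : ℤ) ∣ p.2), wf p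
    = vv (2 * k + 1) := by
  rw [← vv_eq]
  have h3 := bb_mod3 k
  have h7 := (bb_mod7 (2 * k)).2
  have hn := bb_norm (2 * k + 1)
  have hset : (Sol (7 ^ (2 * k + 1))).filter (fun p => ¬ (7 : ℤ) ∣ p.2)
      = {((bb (2 * k + 1)).1, |(bb (2 * k + 1)).2|), (-(bb (2 * k + 1)).1, |(bb (2 * k + 1)).2|)} := by
    ext ⟨x, y⟩
    rw [mem_filter, mem_Sol, mem_insert, mem_singleton, Prod.mk.injEq, Prod.mk.injEq]
    simp only
    constructor
    · rintro ⟨⟨h1, h2⟩, h4⟩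
      obtain ⟨h5, h6⟩ := prim (2 * k) x y h2 h4 h1
      rcases h5 with h5 | h5
      · exact Or.inl ⟨h5, h6⟩
      · exact Or.inr ⟨h5, h6⟩
    · have hpos : 0 < |(bb (2 * k + 1)).2| := abs_pos.mpr (fun h => h7 (by rw [h]; exact dvd_zero _))
      rintro (⟨rfl, rfl⟩ | ⟨rfl, rfl⟩)
      · refine ⟨⟨hpos, by rw [sq_abs]; exact hn⟩, by rwa [dvd_abs]⟩
      · refine ⟨⟨hpos, by rw [sq_abs, neg_sq]; exact hn⟩, by rwa [dvd_abs]⟩
  rw [hset, sum_pair]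
  intro h
  rw [Prod.mk.injEq] at h
  omega

theorem TT7_one : TT7 1 = vv 1 := by
  unfold TT7
  rw [← prim_sum 0]
  symm
  refine sum_subset (filter_subset _ _) ?_
  rintro ⟨x, y⟩ h1 h2
  exfalso
  rw [mem_Sol] at h1
  rw [mem_filter, mem_Sol, not_and, not_not] at h2
  have h3 := h2 h1
  simp only at h3
  obtain ⟨b, rfl⟩ := h3
  have : 0 < b := by omega
  nlinarith [sq_nonneg x, h1.2]

theorem TT7_succ (k : ℕ) : TT7 (2 * k + 3) = TT7 (2 * k + 1) + vv (2 * k + 3) := by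
  unfold TT7
  rw [← sum_filter_add_sum_filter_not (Sol (7 ^ (2 * k + 3))) (fun p => (7 : ℤ) ∣ p.2)]
  rw [show 2 * k + 3 = 2 * (k + 1) + 1 by ring, prim_sum]
  congr 1
  symm
  refine sum_bij (fun p _ => (7 * p.1, 7 * p.2)) ?_ ?_ ?_ ?_
  · rintro ⟨x, y⟩ hp
    rw [mem_Sol] at hp
    rw [mem_filter, mem_Sol]
    obtain ⟨h1, h2⟩ := hp
    refine ⟨⟨by simp only; omega, ?_⟩, Dvd.intro _ rfl⟩
    simp only
    rw [show 2 * (k + 1) + 1 = (2 * k + 1) + 2 by ring, pow_add, ← h2]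
    ring
  · rintro ⟨x, y⟩ _ ⟨x', y'⟩ _ h
    simp only [Prod.mk.injEq] at h ⊢
    omega
  · rintro ⟨x, y⟩ hp
    rw [mem_filter, mem_Sol] at hp
    obtain ⟨⟨h1, h2⟩, ⟨b, hb⟩⟩ := hp
    simp only at hb
    subst hb
    rw [show 2 * (k + 1) + 1 = (2 * k + 1) + 2 by ring, pow_add] at h2
    have h3 : (7 : ℤ) ∣ x ^ 2 := by
      refine ⟨7 * 7 ^ (2 * k + 1) - 21 * b ^ 2, ?_⟩
      linear_combination h2
    obtain ⟨a, rfl⟩ := (by norm_num : Prime (7 : ℤ)).dvd_of_dvd_pow h3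
    refine ⟨(a, b), ?_, rfl⟩
    rw [mem_Sol]
    refine ⟨by omega, ?_⟩
    have : 49 * (a ^ 2 + 3 * b ^ 2) = 49 * (7 : ℤ) ^ (2 * k + 1) := by linear_combination h2
    exact mul_left_cancel₀ (by norm_num) this
  · rintro ⟨x, y⟩ _
    exact (wf_scale7 x y).symm

theorem TT7_eq (J : ℕ) : TT7 (2 * J + 1) = ∑ j ∈ range (J + 1), vv (2 * j + 1) := by
  induction J with
  | zero => simpa using TT7_one
  | succ J ih =>
    rw [sum_range_succ, ← ih]
    exact TT7_succ J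

theorem exists_n (J : ℕ) : ∃ n : ℕ, cc n = ∑ j ∈ range (J + 1), vv (2 * j + 1) := by
  have h : ∃ n : ℕ, 6 * (n : ℤ) + 7 = 7 ^ (2 * J + 1) := by
    induction J with
    | zero => exact ⟨0, by norm_num⟩
    | succ J ih =>
      obtain ⟨n, hn⟩ := ih
      refine ⟨49 * n + 56, ?_⟩
      rw [show 2 * (J + 1) + 1 = (2 * J + 1) + 2 by ring, pow_add, ← hn]
      push_cast
      ring
  obtain ⟨n, hn⟩ := h
  refine ⟨n, ?_⟩
  rw [← TT7_eq, cc_eq, hn]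
  rfl

end Pool.Agent.X13.UC
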