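import Pool.Agent.X13.UC.Dyn
import Pool.Agent.X13.UC.Sev

/-!
# The rotation by the argument of `2+√-3`, and the conclusion
-/

namespace Pool.Agent.X13.UC

open Filter Topology Finset Real

noncomputable section

/-- argument of `2+√-3` -/
def th : ℝ := Real.arccos (2 / √7)

theorem s7 : (0 : ℝ) < √7 := Real.sqrt_pos.mpr (by norm_num)

theorem s7sq : √7 ^ 2 = (7 : ℝ) := Real.sq_sqrt (by norm_num)

theorem s3sq : √3 ^ 2 = (3 : ℝ) := Real.sq_sqrt (by norm_num)

theorem s7ge : (2 : ℝ) < √7 := by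
  rw [Real.lt_sqrt (by norm_num)]; norm_num

theorem cos_th : √7 * Real.cos th = 2 := by
  unfold th
  rw [Real.cos_arccos]
  · field_simp
  · have : (0 : ℝ) ≤ 2 / √7 := by positivity
    linarith
  · rw [div_le_one s7]; exact s7ge.le

theorem sin_th : √7 * Real.sin th = √3 := by
  unfold th
  rw [Real.sin_arccos, div_pow, s7sq]
  have h1 : (1 - 2 ^ 2 / 7 : ℝ) = 3 / 7 := by norm_num
  rw [h1, Real.sqrt_div (by norm_num)]
  have := s7.ne'
  field_simp

theorem bb_angle (k : ℕ) : √7 ^ k * Real.cos (k * th) = (bb k).1 ∧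
    √7 ^ k * Real.sin (k * th) = √3 * (bb k).2 := by
  induction k with
  | zero => simp [bb]
  | succ k ih =>
    obtain ⟨h1, h2⟩ := ih
    have e : ((k + 1 : ℕ) : ℝ) * th = k * th + th := by push_cast; ring
    rw [e, Real.cos_add, Real.sin_add, pow_succ]
    simp only [bb]
    push_cast
    have h3 := cos_th
    have h4 := sin_th
    have h5 := s3sq
    constructor
    · linear_combination (√7 * Real.cos th) * h1 + ((bb k).1 : ℝ) * h3
        - (√7 * Real.sin th) * h2 - √3 * ((bb k).2 : ℝ) * h4 - ((bb k).2 : ℝ) * h5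
    · linear_combination (√7 * Real.cos th) * h2 + (√3 * (bb k).2 : ℝ) * h3
        + (√7 * Real.sin th) * h1 + ((bb k).1 : ℝ) * h4

/-- the step function of the cosine -/
def ga (c : ℝ) : ℤ := if 1 ≤ 4 * c ^ 2 ∧ 4 * c ^ 2 < 3 then (if 0 < c then 1 else -1) else 0

theorem vv_ga (k : ℕ) : vv k = ga (Real.cos (k * th)) := by
  obtain ⟨h1, _⟩ := bb_angle k
  have hn := bb_norm k
  have hn' : ((bb k).1 : ℝ) ^ 2 + 3 * ((bb k).2 : ℝ) ^ 2 = 7 ^ k := by exact_mod_cast hn
  have h7 : (√7 ^ k) ^ 2 = (7 : ℝ) ^ k := by rw [← pow_mul, mul_comm, pow_mul, s7sq]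
  have hp : (0 : ℝ) < √7 ^ k := pow_pos s7 k
  have hq : (0 : ℝ) < (7 : ℝ) ^ k := by positivity
  have hc : (7 : ℝ) ^ k * (4 * Real.cos (k * th) ^ 2) = 4 * ((bb k).1 : ℝ) ^ 2 := by
    rw [← h1, mul_pow, h7]; ring
  unfold vv ga
  have i1 : 1 ≤ 4 * Real.cos (k * th) ^ 2 ↔ (bb k).2 ^ 2 ≤ (bb k).1 ^ 2 := by
    have : ((bb k).2 ^ 2 ≤ (bb k).1 ^ 2) ↔ ((bb k).2 : ℝ) ^ 2 ≤ ((bb k).1 : ℝ) ^ 2 := by
      exact_mod_cast Iff.rfl
    rw [this, ← mul_le_mul_iff_right₀ hq, hc, mul_one]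
    constructor <;> intro h <;> linarith
  have i2 : 4 * Real.cos (k * th) ^ 2 < 3 ↔ (bb k).1 ^ 2 < 9 * (bb k).2 ^ 2 := by
    have : ((bb k).1 ^ 2 < 9 * (bb k).2 ^ 2) ↔ ((bb k).1 : ℝ) ^ 2 < 9 * ((bb k).2 : ℝ) ^ 2 := by
      exact_mod_cast Iff.rfl
    rw [this, ← mul_lt_mul_iff_right₀ hq, hc]
    constructor <;> intro h <;> linarith
  have i3 : 0 < Real.cos (k * th) ↔ 0 < (bb k).1 := by
    have : (0 < (bb k).1) ↔ (0 : ℝ) < ((bb k).1 : ℝ) := by
      exact_mod_cast Iff.rfl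
    rw [this, ← h1]
    exact (mul_pos_iff_of_pos_left hp).symm
  simp only [i1, i2, i3]

/-- the function on the circle -/
def gg (φ : Real.Angle) : ℤ := ga φ.cos

theorem ga_local (c : ℝ) (h1 : 4 * c ^ 2 ≠ 1) (h3 : 4 * c ^ 2 ≠ 3) :
    ∀ᶠ x in 𝓝 c, ga x = ga c := by
  have cont : Continuous fun x : ℝ => 4 * x ^ 2 := by fun_prop
  rcases lt_or_gt_of_ne h1 with h | h
  · filter_upwards [cont.continuousAt.eventually (Iio_mem_nhds h)] with x hx
    have hx' : 4 * x ^ 2 < 1 := hx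
    unfold ga
    rw [if_neg (by intro hh; linarith [hh.1]), if_neg (by intro hh; linarith [hh.1])]
  rcases lt_or_gt_of_ne h3 with h' | h'
  · have hc0 : c ≠ 0 := by rintro rfl; norm_num at h
    have e1 := cont.continuousAt.eventually (Ioi_mem_nhds h)
    have e2 := cont.continuousAt.eventually (Iio_mem_nhds h')
    rcases lt_or_gt_of_ne hc0 with h0 | h0
    · filter_upwards [e1, e2, Iio_mem_nhds h0] with x hx1 hx2 hx3
      have hx1' : 1 < 4 * x ^ 2 := hx1
      have hx2' : 4 * x ^ 2 < 3 := hx2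
      have hx3' : x < 0 := hx3
      have g1 : ga x = -1 := by
        unfold ga; rw [if_pos ⟨hx1'.le, hx2'⟩, if_neg (by linarith)]
      have g2 : ga c = -1 := by
        unfold ga; rw [if_pos ⟨h.le, h'⟩, if_neg (by linarith)]
      rw [g1, g2]
    · filter_upwards [e1, e2, Ioi_mem_nhds h0] with x hx1 hx2 hx3
      have hx1' : 1 < 4 * x ^ 2 := hx1
      have hx2' : 4 * x ^ 2 < 3 := hx2
      have hx3' : 0 < x := hx3
      have g1 : ga x = 1 := by
        unfold ga; rw [if_pos ⟨hx1'.le, hx2'⟩, if_pos hx3']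
      have g2 : ga c = 1 := by
        unfold ga; rw [if_pos ⟨h.le, h'⟩, if_pos h0]
      rw [g1, g2]
  · filter_upwards [cont.continuousAt.eventually (Ioi_mem_nhds h')] with x hx
    have hx' : 3 < 4 * x ^ 2 := hx
    unfold ga
    rw [if_neg (by intro hh; linarith [hh.2]), if_neg (by intro hh; linarith [hh.2])]

/-- `α = 2 th` has infinite order -/
theorem sin_ne (m : ℕ) (hm : 1 ≤ m) : Real.sin (m * th) ≠ 0 := by
  intro h
  obtain ⟨_, h2⟩ := bb_angle m
  rw [h, mul_zero] at h2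
  have h3 : ((bb m).2 : ℝ) = 0 := by
    have : √3 ≠ 0 := (Real.sqrt_pos.mpr (by norm_num)).ne'
    rcases mul_eq_zero.mp h2.symm with h' | h'
    · exact absurd h' this
    · exact h'
  have h4 : (bb m).2 = 0 := by exact_mod_cast h3
  obtain ⟨m', rfl⟩ : ∃ m', m = m' + 1 := ⟨m - 1, by omega⟩
  exact (bb_mod7 m').2 (by rw [h4]; exact dvd_zero _)

/-- rotation -/
def al : Real.Angle := ((2 * th : ℝ) : Real.Angle)

theorem nsmul_al (m : ℕ) : m • al = ((m * (2 * th) : ℝ) : Real.Angle) := by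
  unfold al
  rw [← Real.Angle.coe_nsmul, nsmul_eq_mul]

theorem al_ne (m : ℕ) (hm : 1 ≤ m) : m • al ≠ 0 := by
  intro h
  rw [nsmul_al] at h
  have h1 : Real.sin (m * (2 * th)) = 0 := by
    rw [← Real.Angle.sin_coe, h, Real.Angle.sin_zero]
  refine sin_ne (2 * m) (by omega) ?_
  rw [← h1]; congr 1; push_cast; ring

instance : Fact (0 < 2 * Real.pi) := ⟨Real.two_pi_pos⟩

instance : CompactSpace Real.Angle := inferInstanceAs (CompactSpace (AddCircle (2 * Real.pi)))

theorem al_dense : DenseRange (fun n : ℤ => n • al) := by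
  have h : addOrderOf al = 0 := by
    rw [addOrderOf_eq_zero_iff', ]
    intro n hn
    exact al_ne n hn
  exact AddCircle.denseRange_zsmul_iff.mpr h

theorem twelve (φ : Real.Angle) (h : 4 * φ.cos ^ 2 = 1 ∨ 4 * φ.cos ^ 2 = 3) : 12 • φ = 0 := by
  induction φ using Real.Angle.induction_on
  rename_i x
  rw [Real.Angle.cos_coe] at h
  have h2 : Real.cos (2 * x) ^ 2 = 1 / 4 := by
    rw [Real.cos_two_mul]
    rcases h with h | h
    · have : Real.cos x ^ 2 = 1 / 4 := by linarith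
      rw [this]; norm_num
    · have : Real.cos x ^ 2 = 3 / 4 := by linarith
      rw [this]; norm_num
  have h6 : Real.cos (6 * x) ^ 2 = 1 := by
    rw [show 6 * x = 3 * (2 * x) by ring, Real.cos_three_mul]
    have : (4 * Real.cos (2 * x) ^ 3 - 3 * Real.cos (2 * x)) ^ 2
        = Real.cos (2 * x) ^ 2 * (4 * Real.cos (2 * x) ^ 2 - 3) ^ 2 := by ring
    rw [this, h2]; norm_num
  have h12 : Real.cos (12 * x) = 1 := by
    rw [show 12 * x = 2 * (6 * x) by ring, Real.cos_two_mul, h6]; norm_num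
  rw [← Real.Angle.coe_nsmul, nsmul_eq_mul]
  obtain ⟨n, hn⟩ := (Real.cos_eq_one_iff _).mp h12
  push_cast
  rw [← hn]
  exact Real.Angle.angle_eq_iff_two_pi_dvd_sub.mpr ⟨n, by ring⟩

/-- the discontinuity -/
def dd : Real.Angle := ((π / 3 : ℝ) : Real.Angle)

theorem dd_cos : dd.cos = 1 / 2 := by
  unfold dd
  rw [Real.Angle.cos_coe, Real.cos_pi_div_three]

theorem dd_loc (i : ℤ) (hi : i ≠ 0) : ∀ᶠ φ in 𝓝 (dd + i • al), gg φ = gg (dd + i • al) := by
  have hne : ¬ (4 * (dd + i • al).cos ^ 2 = 1 ∨ 4 * (dd + i • al).cos ^ 2 = 3) := by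
    intro h
    have h1 := twelve _ h
    have h2 := twelve dd (Or.inl (by rw [dd_cos]; norm_num))
    rw [nsmul_add, h2, zero_add] at h1
    obtain ⟨n, rfl | rfl⟩ := i.eq_nat_or_neg
    · rw [natCast_zsmul, ← mul_nsmul'] at h1
      exact al_ne _ (by omega) h1
    · rw [neg_zsmul, natCast_zsmul, smul_neg, neg_eq_zero, ← mul_nsmul'] at h1
      exact al_ne _ (by omega) h1
  rw [not_or] at hne
  exact Real.Angle.continuous_cos.continuousAt.eventually (ga_local _ hne.1 hne.2)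

theorem dd_side (b : Bool) (W : Set Real.Angle) (hW : W ∈ 𝓝 dd) :
    ∃ V ⊆ W, IsOpen V ∧ V.Nonempty ∧ ∀ φ ∈ V, gg φ = (if b then 1 else 0) := by
  obtain ⟨W', hW'W, hW'o, hW'd⟩ := mem_nhds_iff.mp hW
  have hcos : Continuous Real.Angle.cos := Real.Angle.continuous_cos
  -- a small window
  have hcoe : Continuous fun x : ℝ => ((x : ℝ) : Real.Angle) := Real.Angle.continuous_coe
  have h1 : ∀ᶠ x in 𝓝 (π / 3), ((x : ℝ) : Real.Angle) ∈ W' :=
    hcoe.continuousAt.eventually (hW'o.mem_nhds hW'd)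
  have h2 : ∀ᶠ x in 𝓝 (π / 3), 1 / 4 < Real.cos x ∧ Real.cos x < 3 / 4 := by
    have c := Real.continuous_cos.continuousAt (x := π / 3)
    have e : Real.cos (π / 3) = 1 / 2 := Real.cos_pi_div_three
    refine (c.eventually (Ioi_mem_nhds ?_)).and (c.eventually (Iio_mem_nhds ?_))
    · rw [e]; norm_num
    · rw [e]; norm_num
  cases b with
  | true =>
    refine ⟨W' ∩ {φ | 1 / 2 < φ.cos ∧ φ.cos < 3 / 4}, Set.inter_subset_left.trans hW'W,
      hW'o.inter ((isOpen_lt continuous_const hcos).inter (isOpen_lt hcos continuous_const)), ?_, ?_⟩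
    · have h3 : ∀ᶠ x in 𝓝[<] (π / 3), 1 / 2 < Real.cos x := by
        filter_upwards [self_mem_nhdsWithin, (Ioi_mem_nhds (show (0 : ℝ) < π / 3 by positivity) :
          Set.Ioi (0 : ℝ) ∈ 𝓝 (π / 3)) |> mem_nhdsWithin_of_mem_nhds] with x hx hx0
        rw [← Real.cos_pi_div_three]
        have hx0' : 0 < x := hx0
        have hx' : x < π / 3 := hx
        exact Real.cos_lt_cos_of_nonneg_of_le_pi hx0'.le (by linarith [Real.pi_pos]) hx'
      obtain ⟨x, hx1, hx2, hx3⟩ :=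
        ((h1.filter_mono nhdsWithin_le_nhds).and ((h2.filter_mono nhdsWithin_le_nhds).and h3)).exists
      exact ⟨x, hx1, by rw [Real.Angle.cos_coe]; exact hx3, by rw [Real.Angle.cos_coe]; exact hx2.2⟩
    · rintro φ ⟨_, h4, h5⟩
      unfold gg ga
      rw [if_pos ⟨by nlinarith, by nlinarith⟩, if_pos (by linarith)]
      rfl
  | false =>
    refine ⟨W' ∩ {φ | 1 / 4 < φ.cos ∧ φ.cos < 1 / 2}, Set.inter_subset_left.trans hW'W,
      hW'o.inter ((isOpen_lt continuous_const hcos).inter (isOpen_lt hcos continuous_const)), ?_, ?_⟩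
    · have h3 : ∀ᶠ x in 𝓝[>] (π / 3), Real.cos x < 1 / 2 := by
        filter_upwards [self_mem_nhdsWithin, (Iio_mem_nhds (show π / 3 < π by linarith [Real.pi_pos]) :
          Set.Iio π ∈ 𝓝 (π / 3)) |> mem_nhdsWithin_of_mem_nhds] with x hx hx0
        rw [← Real.cos_pi_div_three]
        have hx0' : x < π := hx0
        have hx' : π / 3 < x := hx
        exact Real.cos_lt_cos_of_nonneg_of_le_pi (by positivity) hx0'.le hx'
      obtain ⟨x, hx1, hx2, hx3⟩ :=
        ((h1.filter_mono nhdsWithin_le_nhds).and ((h2.filter_mono nhdsWithin_le_nhds).and h3)).exists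
      exact ⟨x, hx1, by rw [Real.Angle.cos_coe]; exact hx2.1, by rw [Real.Angle.cos_coe]; exact hx3⟩
    · rintro φ ⟨_, h4, h5⟩
      unfold gg ga
      rw [if_neg (by rintro ⟨h6, _⟩; nlinarith)]
      rfl

/-- unboundedness of the partial sums -/
theorem unbdd (B : ℤ) : ∃ J : ℕ, B < |∑ j ∈ range J, vv (2 * j + 1)| := by
  by_contra hcon
  push Not at hcon
  have hval : ∀ j : ℕ, vv (2 * j + 1) = gg (((th : ℝ) : Real.Angle) + j • al) := by
    intro j
    rw [vv_ga, nsmul_al, ← Real.Angle.coe_add]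
    unfold gg
    rw [Real.Angle.cos_coe]
    congr 2
    push_cast
    ring
  refine birkhoff ((th : ℝ) : Real.Angle) al gg (fun U hU hne d => ?_) (fun U hU hne d => ?_) dd dd_loc
    (fun b => if b then 1 else 0) (by norm_num) dd_side B (fun J => ?_)
  · exact dense_fwd al al_dense U hU hne d
  · exact dense_bwd al al_dense U hU hne d
  · rw [← sum_congr rfl fun j _ => hval j]
    exact hcon J

theorem cc_unbdd (B : ℤ) : (∃ n, B < cc n) ∧ (∃ n, cc n < -B) := by
  obtain ⟨J, hJ⟩ := unbdd |B|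
  have hB := le_abs_self B
  rcases J with _ | J
  · simp only [range_zero, sum_empty, abs_zero] at hJ
    have := abs_nonneg B
    omega
  obtain ⟨n, hn⟩ := exists_n J
  rw [← hn] at hJ
  rcases lt_abs.mp hJ with h | h
  · exact ⟨⟨n, by omega⟩, ⟨25 * n + 28, by rw [cc_five]; omega⟩⟩
  · exact ⟨⟨25 * n + 28, by rw [cc_five]; omega⟩, ⟨n, by omega⟩⟩

end

end Pool.Agent.X13.UC
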