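import Mathlib

/-!
# Bounded Birkhoff sums of integer valued functions
-/

namespace Pool.Agent.X13.UC

open Filter Topology Finset

theorem birkhoff {T : Type*} [AddCommGroup T] [TopologicalSpace T] [IsTopologicalAddGroup T]
    (z0 α : T) (g : T → ℤ)
    (hf : ∀ U : Set T, IsOpen U → U.Nonempty → ∀ d : T, ∃ k : ℕ, 1 ≤ k ∧ d + k • α ∈ U)
    (hb : ∀ U : Set T, IsOpen U → U.Nonempty → ∀ d : T, ∃ k : ℕ, 1 ≤ k ∧ d - k • α ∈ U)
    (d : T) (hloc : ∀ i : ℤ, i ≠ 0 → ∀ᶠ φ in 𝓝 (d + i • α), g φ = g (d + i • α))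
    (c : Bool → ℤ) (hc : c true ≠ c false)
    (hV : ∀ b, ∀ W ∈ 𝓝 d, ∃ V ⊆ W, IsOpen V ∧ V.Nonempty ∧ ∀ φ ∈ V, g φ = c b)
    (B : ℤ) (hB : ∀ J : ℕ, |∑ i ∈ range J, g (z0 + i • α)| ≤ B) : False := by
  classical
  set S : ℕ → ℤ := fun J => ∑ i ∈ range J, g (z0 + i • α) with hS
  have hrec : ∀ U : Set T, IsOpen U → U.Nonempty → ∀ N : ℕ, ∃ J, N ≤ J ∧ z0 + J • α ∈ U := by
    intro U hU hne N
    obtain ⟨k, _, hk⟩ := hf U hU hne (z0 + N • α)
    exact ⟨N + k, by omega, by rwa [add_nsmul, ← add_assoc]⟩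
  let P : ℤ → Prop := fun s => ∃ U : Set T, IsOpen U ∧ U.Nonempty ∧ ∃ N : ℕ, ∀ J, N ≤ J →
    z0 + J • α ∈ U → S J ≤ s
  have hP1 : ∃ z, P z := ⟨B, Set.univ, isOpen_univ, ⟨d, trivial⟩, 0, fun J _ _ =>
    (abs_le.mp (hB J)).2⟩
  have hP2 : ∃ b, ∀ z, P z → b ≤ z := by
    refine ⟨-B, ?_⟩
    rintro z ⟨U, hU, hne, N, h⟩
    obtain ⟨J, h1, h2⟩ := hrec U hU hne N
    exact (abs_le.mp (hB J)).1.trans (h J h1 h2)
  obtain ⟨s0, ⟨U0, hU0, hne0, N0, hN0⟩, hmin⟩ := Int.exists_least_of_bdd hP2 hP1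
  have key : ∀ V ⊆ U0, IsOpen V → V.Nonempty → ∀ N : ℕ, ∃ J, N ≤ J ∧ z0 + J • α ∈ V ∧ S J = s0 := by
    intro V hVU hVo hVn N
    by_contra hcon
    push Not at hcon
    have : P (s0 - 1) := by
      refine ⟨V, hVo, hVn, max N N0, fun J hJ hJV => ?_⟩
      have h1 := hcon J (le_trans (le_max_left _ _) hJ) hJV
      have h2 := hN0 J (le_trans (le_max_right _ _) hJ) (hVU hJV)
      omega
    have := hmin _ this
    omega
  obtain ⟨k, hk1, hk⟩ := hf U0 hU0 hne0 d
  obtain ⟨k', hk1', hk'⟩ := hb U0 hU0 hne0 d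
  have c1 : Continuous fun φ : T => φ + k • α := by fun_prop
  have c2 : Continuous fun φ : T => φ - k' • α := by fun_prop
  have w1 : ∀ᶠ φ in 𝓝 d, φ + k • α ∈ U0 := c1.continuousAt.eventually (hU0.mem_nhds hk)
  have w2 : ∀ᶠ φ in 𝓝 d, φ - k' • α ∈ U0 := c2.continuousAt.eventually (hU0.mem_nhds hk')
  have w3 : ∀ᶠ φ in 𝓝 d, ∀ n ∈ range (k' + k), n ≠ k' →
      g (φ - k' • α + n • α) = g (d - k' • α + n • α) := by
    rw [Finset.eventually_all]
    intro n _
    by_cases hn : n = k'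
    · exact Eventually.of_forall fun φ h => absurd hn h
    · have h1 := hloc ((n : ℤ) - k') (by omega)
      have e : ∀ φ : T, φ + ((n : ℤ) - k') • α = φ - k' • α + n • α := by
        intro φ
        rw [sub_smul, natCast_zsmul, natCast_zsmul]; abel
      have c3 : Continuous fun φ : T => φ + ((n : ℤ) - k') • α := by fun_prop
      have h2 := c3.continuousAt.eventually h1
      filter_upwards [h2] with φ hφ _
      rw [← e, ← e]; exact hφ
  set W : Set T := {φ | φ + k • α ∈ U0 ∧ φ - k' • α ∈ U0 ∧ ∀ n ∈ range (k' + k), n ≠ k' →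
      g (φ - k' • α + n • α) = g (d - k' • α + n • α)} with hW
  have hWn : W ∈ 𝓝 d := by
    filter_upwards [w1, w2, w3] with φ h1 h2 h3 using ⟨h1, h2, h3⟩
  set h : ℤ := ∑ n ∈ (range (k' + k)).erase k', g (d - k' • α + n • α) with hh
  have hsum : ∀ (J : ℕ) (b : Bool), z0 + (J + k') • α ∈ W → g (z0 + (J + k') • α) = c b →
      S (J + (k' + k)) = S J + (h + c b) := by
    intro J b hJW hg
    simp only [hS]
    rw [Finset.sum_range_add]
    congr 1
    have hmem : k' ∈ range (k' + k) := mem_range.mpr (by omega)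
    rw [← Finset.sum_erase_add _ _ hmem, hg]
    congr 1
    refine sum_congr rfl fun n hn => ?_
    rw [mem_erase] at hn
    rw [← hJW.2.2 n hn.2 hn.1]
    congr 1
    rw [add_nsmul, add_nsmul]; abel
  have hzero : ∀ b, h + c b = 0 := by
    intro b
    obtain ⟨V, hVW, hVo, hVn, hVg⟩ := hV b W hWn
    apply le_antisymm
    · -- upper bound
      have c4 : Continuous fun φ : T => φ + k' • α := by fun_prop
      obtain ⟨J, hJ1, hJ2, hJ3⟩ := key {φ | φ + k' • α ∈ V} (by
          intro φ hφ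
          have := (hVW hφ).2.1
          rwa [add_sub_cancel_right] at this) (hVo.preimage c4) (by
          obtain ⟨v, hv⟩ := hVn
          exact ⟨v - k' • α, by simpa using hv⟩) N0
      have hφ : z0 + (J + k') • α ∈ V := by
        have : z0 + J • α + k' • α ∈ V := hJ2
        rwa [add_assoc, ← add_nsmul] at this
      have h1 := hsum J b (hVW hφ) (hVg _ hφ)
      have h2 : z0 + (J + (k' + k)) • α ∈ U0 := by
        have := (hVW hφ).1
        rwa [add_assoc, ← add_nsmul, add_assoc] at this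
      have h3 := hN0 (J + (k' + k)) (by omega) h2
      rw [h1, hJ3] at h3
      omega
    · have c4 : Continuous fun φ : T => φ - k • α := by fun_prop
      obtain ⟨J', hJ1, hJ2, hJ3⟩ := key {φ | φ - k • α ∈ V} (by
          intro φ hφ
          have := (hVW hφ).1
          rwa [sub_add_cancel] at this) (hVo.preimage c4) (by
          obtain ⟨v, hv⟩ := hVn
          exact ⟨v + k • α, by simpa using hv⟩) (N0 + (k' + k))
      obtain ⟨J, rfl⟩ : ∃ J, J' = J + (k' + k) := ⟨J' - (k' + k), by omega⟩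
      have hφ : z0 + (J + k') • α ∈ V := by
        have : z0 + (J + (k' + k)) • α - k • α ∈ V := hJ2
        rwa [← add_assoc J, add_nsmul α (J + k'), ← add_assoc, add_sub_cancel_right] at this
      have h1 := hsum J b (hVW hφ) (hVg _ hφ)
      have h2 : z0 + J • α ∈ U0 := by
        have := (hVW hφ).2.1
        rwa [add_nsmul, ← add_assoc, add_sub_cancel_right] at this
      have h3 := hN0 J (by omega) h2
      rw [hJ3] at h1
      omega
  have := hzero true
  have := hzero false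
  exact hc (by omega)

/-- dense orbits in a compact group -/
theorem dense_fwd {T : Type*} [AddCommGroup T] [TopologicalSpace T] [IsTopologicalAddGroup T]
    [CompactSpace T] (α : T) (h : DenseRange (fun n : ℤ => n • α)) (U : Set T) (hU : IsOpen U)
    (hne : U.Nonempty) (d : T) : ∃ k : ℕ, 1 ≤ k ∧ d + k • α ∈ U := by
  have h' : DenseRange (fun n : ℕ => n • α) := denseRange_zsmul_iff_nsmul.mp h
  have c : Continuous fun φ : T => (d + α) + φ := by fun_prop
  obtain ⟨u, hu⟩ := hne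
  obtain ⟨n, hn⟩ := h'.exists_mem_open (hU.preimage c) ⟨u - (d + α), by simpa using hu⟩
  refine ⟨n + 1, by omega, ?_⟩
  have : (d + α) + n • α ∈ U := hn
  rwa [add_assoc, ← succ_nsmul'] at this

theorem dense_bwd {T : Type*} [AddCommGroup T] [TopologicalSpace T] [IsTopologicalAddGroup T]
    [CompactSpace T] (α : T) (h : DenseRange (fun n : ℤ => n • α)) (U : Set T) (hU : IsOpen U)
    (hne : U.Nonempty) (d : T) : ∃ k : ℕ, 1 ≤ k ∧ d - k • α ∈ U := by
  have h' : DenseRange (fun n : ℤ => n • (-α)) := by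
    have e : (fun n : ℤ => n • (-α)) = (fun n : ℤ => n • α) ∘ (fun n : ℤ => -n) := by
      funext n; simp
    unfold DenseRange
    rw [e, neg_surjective.range_comp]
    exact h
  obtain ⟨k, h1, h2⟩ := dense_fwd (-α) h' U hU hne d
  exact ⟨k, h1, by rwa [sub_eq_add_neg, ← smul_neg]⟩

end Pool.Agent.X13.UC
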