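import Pool.Agent.X13.UC.Id3

/-!
# Coefficients of `C` through the form `x² + 3y²`
-/

namespace Pool.Agent.X13.UC

open PowerSeries Finset

noncomputable section

/-- coefficients of `C = (q)_∞ T_o` -/
def cc (n : ℕ) : ℤ := coeff n (E (-1) 0 * To)

theorem coeff_pf (σ : ℤ) (N : ℕ) : coeff N (psi (C σ) * Fs (C σ))
    = ∑ k ∈ range (N + 1), ∑ m ∈ range (N + 1), σ ^ (k + m)
      * ((if N = tr k + pe m then 1 else 0) - (if N = tr k + pe m + (2 * m + 1) then 1 else 0)) := by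
  have h1 : psi (C σ) * Fs (C σ) = S fun k => S fun m =>
      (C σ ^ k * X ^ tr k) * (C σ ^ m * X ^ pe m * (1 - X ^ (2 * m + 1))) := by
    have h2 : ∀ k, (S fun m => (C σ ^ k * X ^ tr k) * (C σ ^ m * X ^ pe m * (1 - X ^ (2 * m + 1))))
        = Fs (C σ) * (C σ ^ k * X ^ tr k) := by
      intro k
      rw [S_mul (ok_Fs (C σ)), mul_comm]
      rfl
    rw [S_congr h2, S_mul (ok_psi (C σ)), mul_comm]
    rfl
  rw [h1, coeff_S']
  refine sum_congr rfl fun k _ => ?_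
  rw [coeff_S']
  refine sum_congr rfl fun m _ => ?_
  have e : (C σ ^ k * X ^ tr k) * (C σ ^ m * X ^ pe m * (1 - X ^ (2 * m + 1)))
      = C (σ ^ (k + m)) * (X ^ (tr k + pe m) - X ^ (tr k + pe m + (2 * m + 1))) := by
    rw [map_pow, pow_add, pow_add X (tr k + pe m), pow_add X (tr k)]
    ring
  rw [e, coeff_C_mul, map_sub, coeff_X_pow, coeff_X_pow]

/-- quadratic character mod 3 -/
def chi (x : ℤ) : ℤ := if x % 3 = 1 then 1 else if x % 3 = 2 then -1 else 0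

/-- weight -/
def wf (p : ℤ × ℤ) : ℤ := if -3 * p.2 < p.1 ∧ p.1 < p.2 then chi p.1 else 0

/-- solutions of `x² + 3y² = V`, `y > 0` -/
def Sol (V : ℤ) : Finset (ℤ × ℤ) :=
  (Icc (-V) V ×ˢ Icc 1 V).filter fun p => p.1 ^ 2 + 3 * p.2 ^ 2 = V

theorem mem_Sol (V x y : ℤ) : (x, y) ∈ Sol V ↔ 0 < y ∧ x ^ 2 + 3 * y ^ 2 = V := by
  unfold Sol
  rw [mem_filter, mem_product, mem_Icc, mem_Icc]
  simp only
  constructor
  · rintro ⟨⟨_, h1, _⟩, h2⟩
    exact ⟨by omega, h2⟩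
  · rintro ⟨h1, h2⟩
    refine ⟨⟨⟨?_, ?_⟩, by omega, ?_⟩, h2⟩
    · nlinarith [sq_nonneg (x + 1), sq_nonneg x]
    · nlinarith [sq_nonneg (x - 1), sq_nonneg x]
    · nlinarith [sq_nonneg x]

theorem cc_eq_sum (n : ℕ) : cc n = ∑ k ∈ range (n + 2), ∑ m ∈ range (n + 2),
    ((if (k + m) % 2 = 1 ∧ n + 1 = tr k + pe m then 1 else 0)
      - (if (k + m) % 2 = 1 ∧ n + 1 = tr k + pe m + (2 * m + 1) then 1 else 0)) := by
  have h1 := congrArg (coeff (n + 1)) main_id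
  have e1 : psi 1 * Fs 1 = psi (C 1) * Fs (C 1) := by rw [map_one]
  have e2 : psi (-1) * Fs (-1) = psi (C (-1)) * Fs (C (-1)) := by rw [map_neg, map_one]
  rw [e1, e2, map_sub, coeff_pf, coeff_pf, ← sum_sub_distrib] at h1
  have e3 : (2 * X) * (E (-1) 0 * To) = C 2 * (X * (E (-1) 0 * To)) := by
    rw [map_ofNat]; ring
  rw [e3, coeff_C_mul, coeff_succ_X_mul] at h1
  have h2 : 2 * cc n = 2 * ∑ k ∈ range (n + 2), ∑ m ∈ range (n + 2),
    ((if (k + m) % 2 = 1 ∧ n + 1 = tr k + pe m then (1 : ℤ) else 0)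
      - (if (k + m) % 2 = 1 ∧ n + 1 = tr k + pe m + (2 * m + 1) then 1 else 0)) := by
    unfold cc
    rw [h1, mul_sum]
    refine sum_congr rfl fun k _ => ?_
    rw [← sum_sub_distrib, mul_sum]
    refine sum_congr rfl fun m _ => ?_
    rcases Nat.even_or_odd (k + m) with h | h
    · have h' : ¬ (k + m) % 2 = 1 := by rw [Nat.even_iff] at h; omega
      rw [h.neg_one_pow, one_pow]
      simp only [h', false_and, if_false]
      ring
    · have h' : (k + m) % 2 = 1 := Nat.odd_iff.mp h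
      rw [h.neg_one_pow, one_pow]
      simp only [h', true_and]
      ring
  exact mul_left_cancel₀ two_ne_zero h2

theorem card1 (n : ℕ) : (((range (n + 2) ×ˢ range (n + 2)).filter
      fun p : ℕ × ℕ => (p.1 + p.2) % 2 = 1 ∧ n + 1 = tr p.1 + pe p.2).card)
    = ((Sol (6 * n + 7)).filter fun p => (-3 * p.2 < p.1 ∧ p.1 < p.2) ∧ p.1 % 3 = 1).card := by
  refine card_nbij' (fun p => (((3 : ℤ) * p.2 - 3 * p.1 - 1) / 2, ((3 : ℤ) * p.2 + p.1 + 1) / 2))
    (fun p => (((p.2 - p.1 - 1) / 2).toNat, ((3 * p.2 + p.1 - 1) / 6).toNat)) ?_ ?_ ?_ ?_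
  · rintro ⟨k, m⟩ hp
    simp only [coe_filter, mem_product, mem_range, Set.mem_ofPred_eq] at hp
    obtain ⟨_, h1, h2⟩ := hp
    simp only [coe_filter, Set.mem_ofPred_eq]
    obtain ⟨t, ht⟩ : ∃ t : ℤ, (k : ℤ) = 2 * t + 1 - m := ⟨((k : ℤ) + m - 1) / 2, by omega⟩
    have e1 : ((3 : ℤ) * m - 3 * k - 1) / 2 = 3 * m - 3 * t - 2 := by omega
    have e2 : ((3 : ℤ) * m + k + 1) / 2 = m + t + 1 := by omega
    rw [e1, e2, mem_Sol]
    have t1 := tr_two k
    have t2 := pe_two m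
    zify at h2 t1 t2
    refine ⟨⟨by omega, ?_⟩, ⟨by omega, by omega⟩, by omega⟩
    rw [ht] at t1
    linear_combination (-3) * t1 - 3 * t2 - 6 * h2
  · rintro ⟨x, y⟩ hp
    simp only [coe_filter, Set.mem_ofPred_eq, mem_Sol] at hp
    obtain ⟨⟨h1, h2⟩, ⟨h3, h4⟩, h5⟩ := hp
    simp only [coe_filter, mem_product, mem_range, Set.mem_ofPred_eq]
    have hpar : (x + y) % 2 = 1 := by
      have h6 : (x ^ 2 + 3 * y ^ 2) % 2 = 1 := by rw [h2]; omega
      rcases Int.even_or_odd' x with ⟨a, rfl | rfl⟩ <;> rcases Int.even_or_odd' y with ⟨b, rfl | rfl⟩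
      · exfalso; ring_nf at h6; omega
      · omega
      · omega
      · exfalso; ring_nf at h6; omega
    obtain ⟨k, hk⟩ : ∃ k : ℕ, ((y - x - 1) / 2) = (k : ℤ) :=
      ⟨((y - x - 1) / 2).toNat, by omega⟩
    obtain ⟨m, hm⟩ : ∃ m : ℕ, ((3 * y + x - 1) / 6) = (m : ℤ) :=
      ⟨((3 * y + x - 1) / 6).toNat, by omega⟩
    rw [hk, hm, Int.toNat_natCast, Int.toNat_natCast]
    have hk' : y - x = 2 * k + 1 := by omega
    have hm' : 3 * y + x = 6 * m + 1 := by omega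
    have hpar2 : (k + m) % 2 = 1 := by omega
    have t1 := tr_two k
    have t2 := pe_two m
    have key : n + 1 = tr k + pe m := by
      zify at t1 t2 ⊢
      have ey : 4 * y = 6 * m + 2 * k + 2 := by linarith
      have ex : 4 * x = 6 * m - 6 * k - 2 := by linarith
      have h7 : 16 * (6 * (n : ℤ) + 7) = (6 * m - 6 * k - 2) ^ 2 + 3 * (6 * m + 2 * k + 2) ^ 2 := by
        rw [← ey, ← ex, ← h2]; ring
      linarith
    refine ⟨⟨?_, ?_⟩, hpar2, key⟩
    · have := le_tr k; omega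
    · have := le_pe m; omega
  · rintro ⟨k, m⟩ hp
    simp only [coe_filter, mem_product, mem_range, Set.mem_ofPred_eq] at hp
    obtain ⟨_, h1, h2⟩ := hp
    simp only [Prod.mk.injEq]
    constructor <;> omega
  · rintro ⟨x, y⟩ hp
    simp only [coe_filter, Set.mem_ofPred_eq, mem_Sol] at hp
    obtain ⟨⟨h1, h2⟩, ⟨h3, h4⟩, h5⟩ := hp
    have hpar : (x + y) % 2 = 1 := by
      have h6 : (x ^ 2 + 3 * y ^ 2) % 2 = 1 := by rw [h2]; omega
      rcases Int.even_or_odd' x with ⟨a, rfl | rfl⟩ <;> rcases Int.even_or_odd' y with ⟨b, rfl | rfl⟩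
      · exfalso; ring_nf at h6; omega
      · omega
      · omega
      · exfalso; ring_nf at h6; omega
    simp only [Prod.mk.injEq]
    constructor <;> omega

theorem card2 (n : ℕ) : (((range (n + 2) ×ˢ range (n + 2)).filter
      fun p : ℕ × ℕ => (p.1 + p.2) % 2 = 1 ∧ n + 1 = tr p.1 + pe p.2 + (2 * p.2 + 1)).card)
    = ((Sol (6 * n + 7)).filter fun p => (-3 * p.2 < p.1 ∧ p.1 < p.2) ∧ p.1 % 3 = 2).card := by
  refine card_nbij' (fun p => (((3 : ℤ) * p.2 - 3 * p.1 + 1) / 2, ((3 : ℤ) * p.2 + p.1 + 3) / 2))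
    (fun p => (((p.2 - p.1 - 1) / 2).toNat, ((3 * p.2 + p.1 - 5) / 6).toNat)) ?_ ?_ ?_ ?_
  · rintro ⟨k, m⟩ hp
    simp only [coe_filter, mem_product, mem_range, Set.mem_ofPred_eq] at hp
    obtain ⟨_, h1, h2⟩ := hp
    simp only [coe_filter, Set.mem_ofPred_eq]
    obtain ⟨t, ht⟩ : ∃ t : ℤ, (k : ℤ) = 2 * t + 1 - m := ⟨((k : ℤ) + m - 1) / 2, by omega⟩
    have e1 : ((3 : ℤ) * m - 3 * k + 1) / 2 = 3 * m - 3 * t - 1 := by omega
    have e2 : ((3 : ℤ) * m + k + 3) / 2 = m + t + 2 := by omega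
    rw [e1, e2, mem_Sol]
    have t1 := tr_two k
    have t2 := pe_two m
    zify at h2 t1 t2
    refine ⟨⟨by omega, ?_⟩, ⟨by omega, by omega⟩, by omega⟩
    rw [ht] at t1
    linear_combination (-3) * t1 - 3 * t2 - 6 * h2
  · rintro ⟨x, y⟩ hp
    simp only [coe_filter, Set.mem_ofPred_eq, mem_Sol] at hp
    obtain ⟨⟨h1, h2⟩, ⟨h3, h4⟩, h5⟩ := hp
    simp only [coe_filter, mem_product, mem_range, Set.mem_ofPred_eq]
    have hpar : (x + y) % 2 = 1 := by
      have h6 : (x ^ 2 + 3 * y ^ 2) % 2 = 1 := by rw [h2]; omega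
      rcases Int.even_or_odd' x with ⟨a, rfl | rfl⟩ <;> rcases Int.even_or_odd' y with ⟨b, rfl | rfl⟩
      · exfalso; ring_nf at h6; omega
      · omega
      · omega
      · exfalso; ring_nf at h6; omega
    obtain ⟨k, hk⟩ : ∃ k : ℕ, ((y - x - 1) / 2) = (k : ℤ) :=
      ⟨((y - x - 1) / 2).toNat, by omega⟩
    obtain ⟨m, hm⟩ : ∃ m : ℕ, ((3 * y + x - 5) / 6) = (m : ℤ) :=
      ⟨((3 * y + x - 5) / 6).toNat, by omega⟩
    rw [hk, hm, Int.toNat_natCast, Int.toNat_natCast]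
    have hk' : y - x = 2 * k + 1 := by omega
    have hm' : 3 * y + x = 6 * m + 5 := by omega
    have hpar2 : (k + m) % 2 = 1 := by omega
    have t1 := tr_two k
    have t2 := pe_two m
    have key : n + 1 = tr k + pe m + (2 * m + 1) := by
      zify at t1 t2 ⊢
      have ey : 4 * y = 6 * m + 2 * k + 6 := by linarith
      have ex : 4 * x = 6 * m - 6 * k + 2 := by linarith
      have h7 : 16 * (6 * (n : ℤ) + 7) = (6 * m - 6 * k + 2) ^ 2 + 3 * (6 * m + 2 * k + 6) ^ 2 := by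
        rw [← ey, ← ex, ← h2]; ring
      linarith
    refine ⟨⟨?_, ?_⟩, hpar2, key⟩
    · have := le_tr k; omega
    · have := le_pe m; omega
  · rintro ⟨k, m⟩ hp
    simp only [coe_filter, mem_product, mem_range, Set.mem_ofPred_eq] at hp
    obtain ⟨_, h1, h2⟩ := hp
    simp only [Prod.mk.injEq]
    constructor <;> omega
  · rintro ⟨x, y⟩ hp
    simp only [coe_filter, Set.mem_ofPred_eq, mem_Sol] at hp
    obtain ⟨⟨h1, h2⟩, ⟨h3, h4⟩, h5⟩ := hp
    have hpar : (x + y) % 2 = 1 := by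
      have h6 : (x ^ 2 + 3 * y ^ 2) % 2 = 1 := by rw [h2]; omega
      rcases Int.even_or_odd' x with ⟨a, rfl | rfl⟩ <;> rcases Int.even_or_odd' y with ⟨b, rfl | rfl⟩
      · exfalso; ring_nf at h6; omega
      · omega
      · omega
      · exfalso; ring_nf at h6; omega
    simp only [Prod.mk.injEq]
    constructor <;> omega

/-- the coefficient formula -/
theorem cc_eq (n : ℕ) : cc n = ∑ p ∈ Sol (6 * n + 7), wf p := by
  have h1 : cc n = ((((range (n + 2) ×ˢ range (n + 2)).filter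
      fun p : ℕ × ℕ => (p.1 + p.2) % 2 = 1 ∧ n + 1 = tr p.1 + pe p.2).card : ℕ) : ℤ)
      - ((((range (n + 2) ×ˢ range (n + 2)).filter
      fun p : ℕ × ℕ => (p.1 + p.2) % 2 = 1 ∧ n + 1 = tr p.1 + pe p.2 + (2 * p.2 + 1)).card : ℕ) : ℤ) := by
    rw [cc_eq_sum]
    simp only [sum_sub_distrib]
    rw [card_filter, card_filter, sum_product, sum_product]
    push_cast
    rfl
  rw [h1, card1, card2, card_filter, card_filter]
  push_cast
  rw [← sum_sub_distrib]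
  refine sum_congr rfl fun p _ => ?_
  unfold wf chi
  by_cases h2 : -3 * p.2 < p.1 ∧ p.1 < p.2
  · simp only [h2, true_and]
    by_cases h3 : p.1 % 3 = 1
    · simp [h3]
    · by_cases h4 : p.1 % 3 = 2
      · simp [h4]
      · simp [h3, h4]
  · simp only [h2, false_and]
    simp

end

end Pool.Agent.X13.UC
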