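import Pool.Agent.X13.UC.Ser

/-!
# Partial theta identities
-/

namespace Pool.Agent.X13.UC

open PowerSeries Finset

noncomputable section

/-- triangular numbers -/
def tr (k : ℕ) : ℕ := k * (k + 1) / 2

theorem tr_two (k : ℕ) : 2 * tr k = k * (k + 1) := by
  unfold tr
  exact Nat.mul_div_cancel' (Nat.even_mul_succ_self k).two_dvd

theorem tr_zero : tr 0 = 0 := rfl

theorem tr_succ (k : ℕ) : tr (k + 1) = tr k + (k + 1) := by
  have h1 := tr_two k
  have h2 := tr_two (k + 1)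
  have : (k + 1) * (k + 1 + 1) = k * (k + 1) + 2 * (k + 1) := by ring
  omega

theorem tr_add (i m : ℕ) : tr (i + m) = tr m + (tr i + m * i) := by
  have h1 := tr_two i
  have h2 := tr_two m
  have h3 := tr_two (i + m)
  have : (i + m) * (i + m + 1) = i * (i + 1) + m * (m + 1) + 2 * (m * i) := by ring
  omega

theorem le_tr (k : ℕ) : k ≤ tr k := by
  have h1 := tr_two k
  nlinarith

/-- `1/(q)_j` -/
def iq (j : ℕ) : ℤ⟦X⟧ := ∏ i ∈ range j, TT.geo (i + 1)

/-- `(q)_j` -/
def qp (j : ℕ) : ℤ⟦X⟧ := ∏ i ∈ range j, (1 - X ^ (i + 1))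

theorem iq_zero : iq 0 = 1 := by simp [iq]

theorem qp_zero : qp 0 = 1 := by simp [qp]

theorem qp_succ (j : ℕ) : qp (j + 1) = qp j * (1 - X ^ (j + 1)) := by
  unfold qp; rw [prod_range_succ]

theorem iq_succ (j : ℕ) : (1 - X ^ (j + 1)) * iq (j + 1) = iq j := by
  unfold iq
  rw [prod_range_succ]
  have := TT.one_sub_mul_geo (d := j + 1) (by omega)
  linear_combination (∏ i ∈ range j, TT.geo (i + 1)) * this

theorem qp_iq (j : ℕ) : qp j * iq j = 1 := by
  induction j with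
  | zero => rw [iq_zero, qp_zero, one_mul]
  | succ j ih =>
    rw [qp_succ, mul_assoc, iq_succ, ih]

/-- terms of the Euler expansion -/
def et (s : ℤ⟦X⟧) (k j : ℕ) : ℤ⟦X⟧ := s ^ j * X ^ (tr j + k * j) * iq j

theorem et_dvd (s : ℤ⟦X⟧) (k j : ℕ) : (X : ℤ⟦X⟧) ^ j ∣ et s k j := by
  unfold et
  exact ((pow_dvd_pow X ((le_tr j).trans (Nat.le_add_right _ _))).mul_left _).mul_right _

theorem et_ok (s : ℤ⟦X⟧) (k : ℕ) : ok (et s k) := et_dvd s k

/-- `(-s q^{k+1})_∞` through Euler's expansion -/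
def E (s : ℤ⟦X⟧) (k : ℕ) : ℤ⟦X⟧ := S (et s k)

theorem E_succ (s : ℤ⟦X⟧) (k : ℕ) : E s k = (1 + s * X ^ (k + 1)) * E s (k + 1) := by
  have h0 : ok fun j => et s k j - et s (k + 1) j := (et_ok s k).sub (et_ok s (k + 1))
  have h1 : E s k - E s (k + 1) = S fun j => et s k j - et s (k + 1) j := by
    unfold E; rw [S_sub]
  rw [S_succ h0] at h1
  have h2 : ∀ j, et s k (j + 1) - et s (k + 1) (j + 1) = (s * X ^ (k + 1)) * et s (k + 1) j := by
    intro j
    unfold et
    have e1 : (X : ℤ⟦X⟧) ^ (tr (j + 1) + k * (j + 1)) = X ^ (k + 1) * X ^ (tr j + (k + 1) * j) := by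
      rw [← pow_add, tr_succ]; congr 1; ring
    have e2 : (X : ℤ⟦X⟧) ^ (tr (j + 1) + (k + 1) * (j + 1))
        = X ^ (k + 1) * X ^ (tr j + (k + 1) * j) * X ^ (j + 1) := by
      rw [← pow_add, ← pow_add, tr_succ]; congr 1; ring
    rw [e1, e2, ← iq_succ j]
    ring
  rw [S_congr h2, S_mul (et_ok s (k + 1))] at h1
  have h3 : et s k 0 - et s (k + 1) 0 = 0 := by simp [et, tr_zero]
  rw [h3] at h1
  unfold E at h1 ⊢
  linear_combination h1

theorem E_dvd (s : ℤ⟦X⟧) (k : ℕ) : (X : ℤ⟦X⟧) ^ (k + 1) ∣ E s k - 1 := by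
  unfold E
  rw [S_succ (et_ok s k)]
  have : et s k 0 = 1 := by simp [et, tr_zero, iq_zero]
  rw [this, add_sub_cancel_left]
  refine dvd_S fun j => ?_
  unfold et
  refine (Dvd.dvd.mul_left (pow_dvd_pow X ?_) _).mul_right _
  have := le_tr (j + 1)
  nlinarith

theorem E_prod (s : ℤ⟦X⟧) (k m : ℕ) :
    E s k = (∏ i ∈ range m, (1 + s * X ^ (k + 1 + i))) * E s (k + m) := by
  induction m with
  | zero => simp
  | succ m ih =>
    rw [ih, prod_range_succ, E_succ s (k + m)]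
    rw [show k + m + 1 = k + 1 + m by ring, show k + (m + 1) = k + 1 + m by ring]
    ring

/-- `A_s(j) = ∑_k q^{k(j+1)} (-s q^{k+1})_∞` -/
def A (s : ℤ⟦X⟧) (j : ℕ) : ℤ⟦X⟧ := S fun k => X ^ (k * (j + 1)) * E s k

theorem okA (s : ℤ⟦X⟧) (j : ℕ) : ok fun k => X ^ (k * (j + 1)) * E s k :=
  fun k => (pow_dvd_pow X (Nat.le_mul_of_pos_right k (Nat.succ_pos j))).mul_right _

theorem A_succ (s : ℤ⟦X⟧) (j : ℕ) :
    s * A s (j + 1) = (1 + s) * E s 0 - (1 - X ^ (j + 1)) * A s j := by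
  have hok : ok fun k => X ^ (k * (j + 1)) * E s k * (1 + s * X ^ k) := (okA s j).mulr _
  have h1 : (S fun k => X ^ (k * (j + 1)) * E s k * (1 + s * X ^ k)) = A s j + s * A s (j + 1) := by
    unfold A
    rw [← S_mul (okA s (j + 1)), ← S_add]
    refine S_congr fun k => ?_
    rw [show k * (j + 1 + 1) = k * (j + 1) + k by ring, pow_add]
    ring
  have h2 : (S fun k => X ^ (k * (j + 1)) * E s k * (1 + s * X ^ k))
      = (1 + s) * E s 0 + X ^ (j + 1) * A s j := by
    rw [S_succ hok]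
    unfold A
    rw [← S_mul (okA s j)]
    congr 1
    · simp only [zero_mul, pow_zero, one_mul, mul_one]; ring
    · refine S_congr fun k => ?_
      rw [E_succ s k, show (k + 1) * (j + 1) = (j + 1) + k * (j + 1) by ring, pow_add]
      ring
  linear_combination h2 - h1

theorem A_zero (s : ℤ⟦X⟧) : s * A s 0 = (1 + s) * E s 0 - 1 := by
  have hok : ok fun k => (1 + s * X ^ k) * E s k - 1 := by
    intro k
    rcases k with _ | k
    · simp
    · show (X : ℤ⟦X⟧) ^ (k + 1) ∣ (1 + s * X ^ (k + 1)) * E s (k + 1) - 1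
      rw [← E_succ s k]; exact E_dvd s k
  have h := S_tele hok
  simp only [pow_zero, mul_one] at h
  rw [← h]
  unfold A
  rw [← S_mul (okA s 0)]
  refine S_congr fun k => ?_
  rw [← E_succ s k, zero_add, mul_one]
  ring

theorem sq_sum (s : ℤ⟦X⟧) :
    (S fun k => X ^ k * (E s k * E s k)) = S fun j => s ^ j * X ^ tr j * iq j * A s j := by
  have h1 : ∀ k, X ^ k * (E s k * E s k) = S fun j => X ^ k * E s k * et s k j := by
    intro k
    rw [S_mul (et_ok s k)]
    unfold E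
    ring
  rw [S_congr h1, S_comm]
  refine S_congr fun j => ?_
  unfold A
  rw [← S_mul (okA s j)]
  refine S_congr fun k => ?_
  unfold et
  rw [show tr j + k * j = tr j + k * j by rfl, pow_add, show k * (j + 1) = k * j + k by ring,
    pow_add]
  ring

/-- `∑_k s^k q^{k(k+1)/2}` -/
def psi (s : ℤ⟦X⟧) : ℤ⟦X⟧ := S fun k => s ^ k * X ^ tr k

theorem ok_psi (s : ℤ⟦X⟧) : ok fun k => s ^ k * X ^ tr k :=
  (ok_pow le_tr).mul _

theorem A_neg (j : ℕ) : A (-1) j = qp j := by
  induction j with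
  | zero =>
    have := A_zero (-1)
    rw [qp_zero]
    linear_combination -this
  | succ j ih =>
    have := A_succ (-1) j
    rw [qp_succ, ← ih]
    linear_combination -this

theorem sq_sum_neg : (S fun k => X ^ k * (E (-1) k * E (-1) k)) = psi (-1) := by
  rw [sq_sum]
  refine S_congr fun j => ?_
  rw [A_neg]
  have := qp_iq j
  linear_combination ((-1) ^ j * X ^ tr j) * this

theorem A_pos (j : ℕ) : iq j * A 1 j
    = (-1) ^ j * (-1 + 2 * E 1 0 * ∑ i ∈ range (j + 1), (-1) ^ i * iq i) := by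
  induction j with
  | zero =>
    have := A_zero 1
    simp only [zero_add, range_one, sum_singleton, pow_zero, iq_zero, one_mul, mul_one]
    linear_combination this
  | succ j ih =>
    have h1 := A_succ 1 j
    have h2 := iq_succ j
    rw [sum_range_succ]
    have h3 : ((-1 : ℤ⟦X⟧) ^ (j + 1)) * (-1) ^ (j + 1) = 1 := by
      rw [← mul_pow]; simp
    rw [pow_succ] at h3 ⊢
    linear_combination iq (j + 1) * h1 - ih - A 1 j * h2 - (2 * E 1 0 * iq (j + 1)) * h3

theorem sq_sum_pos : (S fun k => X ^ k * (E 1 k * E 1 k))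
    = -psi (-1) + 2 * E 1 0 * S fun m => (-1) ^ m * X ^ tr m * E 1 m := by
  rw [sq_sum]
  have hok : ∀ i j : ℕ, (X : ℤ⟦X⟧) ^ j ∣ (-1) ^ (j + i) * X ^ tr j * iq i := fun i j =>
    (Dvd.dvd.mul_left (pow_dvd_pow X (le_tr j)) _).mul_right _
  have h1 : ∀ j, (1 : ℤ⟦X⟧) ^ j * X ^ tr j * iq j * A 1 j
      = (2 * E 1 0) * ∑ i ∈ range (j + 1), (-1) ^ (j + i) * X ^ tr j * iq i - (-1) ^ j * X ^ tr j := by
    intro j
    have := A_pos j
    have e : ∑ i ∈ range (j + 1), (-1) ^ (j + i) * X ^ tr j * iq i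
        = (-1) ^ j * X ^ tr j * ∑ i ∈ range (j + 1), (-1) ^ i * iq i := by
      rw [mul_sum]
      refine sum_congr rfl fun i _ => ?_
      rw [pow_add]; ring
    rw [e, one_pow]
    linear_combination (X ^ tr j) * this
  have hok2 : ok fun j => ∑ i ∈ range (j + 1), (-1) ^ (j + i) * X ^ tr j * iq i :=
    fun j => dvd_sum fun i _ => hok i j
  rw [S_congr h1, S_sub, S_mul hok2, S_tri hok, S_comm]
  unfold psi
  have h2 : ∀ m, (S fun i => (-1) ^ (i + m + i) * X ^ tr (i + m) * iq i)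
      = (-1) ^ m * X ^ tr m * E 1 m := by
    intro m
    unfold E
    rw [← S_mul (et_ok 1 m)]
    refine S_congr fun i => ?_
    unfold et
    rw [tr_add, pow_add X (tr m), one_pow, show i + m + i = m + 2 * i by ring, pow_add, pow_mul]
    norm_num
    ring
  rw [S_congr h2]
  ring

end

end Pool.Agent.X13.UC
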