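import Pool.Agent.X13.UC.Id

/-!
# Rogers' false theta identity, Euler's pentagonal identity, Gauss' identity
-/

namespace Pool.Agent.X13.UC

open PowerSeries Finset

noncomputable section

/-- `∑_m (-1)^m q^{m(m+1)/2 + 2nm} (-s q^{n+m+1})_∞` -/
def G (s : ℤ⟦X⟧) (n : ℕ) : ℤ⟦X⟧ := S fun m => (-1) ^ m * X ^ (tr m + 2 * n * m) * E s (n + m)

theorem ok_G (s : ℤ⟦X⟧) (n : ℕ) : ok fun m => (-1) ^ m * X ^ (tr m + 2 * n * m) * E s (n + m) :=
  fun m => ((pow_dvd_pow X ((le_tr m).trans (Nat.le_add_right _ _))).mul_left _).mul_right _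

theorem G_succ (s : ℤ⟦X⟧) (hs : s * s = 1) (n : ℕ) :
    G s n = (1 - X ^ (2 * n + 1)) * E s n + s * X ^ (3 * n + 2) * (1 + s * X ^ (n + 1)) * G s (n + 1) := by
  have hok : ok fun m => (-1) ^ m * X ^ (tr m + 2 * n * m) * (1 - X ^ (m + 2 * n + 1)) * E s (n + m) :=
    fun m => (((pow_dvd_pow X ((le_tr m).trans (Nat.le_add_right _ _))).mul_left _).mul_right
      _).mul_right _
  have h := S_tele hok
  have h0 : (-1) ^ 0 * (X : ℤ⟦X⟧) ^ (tr 0 + 2 * n * 0) * (1 - X ^ (0 + 2 * n + 1)) * E s (n + 0)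
      = (1 - X ^ (2 * n + 1)) * E s n := by
    rw [tr_zero, zero_add, mul_zero, add_zero, pow_zero, pow_zero]; ring
  rw [h0] at h
  rw [← h]
  unfold G
  rw [← S_mul (ok_G s (n + 1)), ← S_add]
  refine S_congr fun m => ?_
  have e1 : (X : ℤ⟦X⟧) ^ (tr (m + 1) + 2 * n * (m + 1))
      = X ^ (tr m + 2 * n * m) * X ^ m * (X ^ n * X ^ n) * X := by
    rw [← pow_add, ← pow_add, ← pow_add, ← pow_succ, tr_succ]; congr 1; ring
  have e2 : (X : ℤ⟦X⟧) ^ (tr m + 2 * (n + 1) * m) = X ^ (tr m + 2 * n * m) * X ^ m * X ^ m := by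
    rw [← pow_add, ← pow_add]; congr 1; ring
  have e3 : (X : ℤ⟦X⟧) ^ (m + 2 * n + 1) = X ^ m * (X ^ n * X ^ n) * X := by
    rw [← pow_add, ← pow_add, ← pow_succ]; congr 1; ring
  have e4 : (X : ℤ⟦X⟧) ^ (m + 1 + 2 * n + 1) = X ^ m * (X ^ n * X ^ n) * X * X := by
    rw [← pow_add, ← pow_add, ← pow_succ, ← pow_succ]; congr 1; ring
  have e5 : (X : ℤ⟦X⟧) ^ (3 * n + 2) = X ^ n * X ^ n * X ^ n * X * X := by
    rw [← pow_add, ← pow_add, ← pow_succ, ← pow_succ]; congr 1; ring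
  have e6 : (X : ℤ⟦X⟧) ^ (n + m + 1) = X ^ n * X ^ m * X := by
    rw [← pow_add, ← pow_succ]
  rw [E_succ s (n + m), e1, e2, e3, e4, e5, e6, show n + 1 + m = n + m + 1 by ring,
    show n + (m + 1) = n + m + 1 by ring, pow_succ (-1 : ℤ⟦X⟧) m, pow_succ (X : ℤ⟦X⟧) n]
  generalize E s (n + m + 1) = e
  generalize (X : ℤ⟦X⟧) ^ (tr m + 2 * n * m) = t
  generalize (X : ℤ⟦X⟧) ^ m = x
  generalize (X : ℤ⟦X⟧) ^ n = y
  generalize (-1 : ℤ⟦X⟧) ^ m = u
  linear_combination (-(u * t * e * x * x * y * y * y * y * X * X * X)) * hs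

/-- `∏_{i<n} (1 + s q^{i+1})` -/
def pp (s : ℤ⟦X⟧) (n : ℕ) : ℤ⟦X⟧ := ∏ i ∈ range n, (1 + s * X ^ (i + 1))

theorem pp_E (s : ℤ⟦X⟧) (n : ℕ) : pp s n * E s n = E s 0 := by
  rw [E_prod s 0 n]
  unfold pp
  simp only [zero_add]
  congr 1
  refine prod_congr rfl fun i _ => ?_
  rw [add_comm 1 i]

theorem pp_succ (s : ℤ⟦X⟧) (n : ℕ) : pp s (n + 1) = pp s n * (1 + s * X ^ (n + 1)) := by
  unfold pp; rw [prod_range_succ]

/-- exponent `n(3n+1)/2` -/
def pe (n : ℕ) : ℕ := n * (3 * n + 1) / 2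

theorem pe_two (n : ℕ) : 2 * pe n = n * (3 * n + 1) := by
  unfold pe
  refine Nat.mul_div_cancel' ?_
  rcases Nat.even_or_odd n with h | h
  · exact h.two_dvd.mul_right _
  · refine Dvd.dvd.mul_left ?_ _
    obtain ⟨m, rfl⟩ := h
    exact ⟨3 * m + 2, by ring⟩

theorem pe_succ (n : ℕ) : pe (n + 1) = pe n + (3 * n + 2) := by
  have h1 := pe_two n
  have h2 := pe_two (n + 1)
  have : (n + 1) * (3 * (n + 1) + 1) = n * (3 * n + 1) + 2 * (3 * n + 2) := by ring
  omega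

theorem le_pe (n : ℕ) : n ≤ pe n := by
  have h1 := pe_two n
  nlinarith

/-- `∑_n s^n q^{n(3n+1)/2} (1 - q^{2n+1})` -/
def Fs (s : ℤ⟦X⟧) : ℤ⟦X⟧ := S fun n => s ^ n * X ^ pe n * (1 - X ^ (2 * n + 1))

theorem ok_Fs (s : ℤ⟦X⟧) : ok fun n => s ^ n * X ^ pe n * (1 - X ^ (2 * n + 1)) :=
  ((ok_pow le_pe).mul _).mulr _

theorem G_zero (s : ℤ⟦X⟧) (hs : s * s = 1) : G s 0 = E s 0 * Fs s := by
  have hok : ok fun n => s ^ n * X ^ pe n * pp s n * G s n :=
    (((ok_pow le_pe).mul _).mulr _).mulr _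
  have h := S_tele hok
  have h0 : s ^ 0 * X ^ pe 0 * pp s 0 * G s 0 = G s 0 := by
    simp [pe, pp]
  rw [h0] at h
  rw [← h]
  unfold Fs
  rw [← S_mul (ok_Fs s)]
  refine S_congr fun n => ?_
  rw [G_succ s hs n, pp_succ, pe_succ, ← pp_E s n, pow_add, pow_succ s n]
  ring

theorem G_zero' (s : ℤ⟦X⟧) : G s 0 = S fun m => (-1) ^ m * X ^ tr m * E s m := by
  unfold G
  refine S_congr fun m => ?_
  rw [mul_zero, zero_mul, add_zero, zero_add]

theorem E_ne_zero (s : ℤ⟦X⟧) (k : ℕ) : E s k ≠ 0 := by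
  intro h
  have h1 := E_dvd s k
  rw [h, zero_sub] at h1
  have h2 := X_pow_dvd_iff.mp h1 0 (by omega)
  simp at h2

/-- Euler's pentagonal number theorem -/
theorem penta : E (-1) 0 = Fs (-1) := by
  have h1 := G_zero (-1) (by ring)
  rw [G_zero'] at h1
  have h2 : (S fun m => (-1) ^ m * X ^ tr m * E (-1) m) = E (-1) 0 * E (-1) 0 := by
    conv_rhs => rw [E]
    conv_rhs => rw [mul_comm]
    rw [mul_comm, ← S_mul (et_ok (-1) 0)]
    refine S_congr fun m => ?_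
    have h3 : E (-1) m = iq m * E (-1) 0 := by
      rw [← pp_E (-1) m, ← mul_assoc]
      have h4 : pp (-1) m = qp m := by
        unfold pp qp
        refine prod_congr rfl fun i _ => ?_
        ring
      rw [h4]
      have := qp_iq m
      linear_combination (-E (-1) m) * this
    rw [h3]
    unfold et
    rw [zero_mul, add_zero]
    show _ = S (et (-1) 0) * _
    change _ = E (-1) 0 * _
    ring
  rw [h2] at h1
  exact mul_left_cancel₀ (E_ne_zero _ _) h1

/-! ### Gauss -/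

/-- `∏_{i<M} (1 - q^{k+1+i})` -/
def Rr (k M : ℕ) : ℤ⟦X⟧ := ∏ i ∈ range M, (1 - X ^ (k + 1 + i))

theorem Rr_zero (k : ℕ) : Rr k 0 = 1 := by simp [Rr]

theorem Rr_succ (k M : ℕ) : Rr k (M + 1) = Rr k M * (1 - X ^ (k + 1 + M)) := by
  unfold Rr; rw [prod_range_succ]

theorem Rr_succ' (k M : ℕ) : Rr k (M + 1) = (1 - X ^ (k + 1)) * Rr (k + 1) M := by
  unfold Rr
  rw [prod_range_succ', mul_comm, add_zero]
  congr 1
  refine prod_congr rfl fun i _ => ?_
  congr 2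
  ring

theorem Rr_E (k M : ℕ) : E (-1) k = Rr k M * E (-1) (k + M) := by
  rw [E_prod (-1) k M]
  congr 1
  unfold Rr
  refine prod_congr rfl fun i _ => ?_
  ring

/-- `∑_k q^{k(k+1)/2} (q^{k+1})_M` -/
def Z (M : ℕ) : ℤ⟦X⟧ := S fun k => X ^ tr k * Rr k M

theorem ok_Z (M : ℕ) : ok fun k => X ^ tr k * Rr k M := (ok_pow le_tr).mulr _

theorem Z_succ (M : ℕ) : Z (M + 2) = (1 - X ^ (M + 1)) * Z M := by
  have hok : ok fun k => X ^ (M + 1) * (X ^ tr k * (1 - X ^ k) * Rr k M) := by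
    intro k
    exact ((((pow_dvd_pow X (le_tr k)).mul_right _)).mul_right _).mul_left _
  have h := S_tele hok
  have h0 : X ^ (M + 1) * (X ^ tr 0 * (1 - X ^ 0) * Rr 0 M) = 0 := by simp
  rw [h0] at h
  have h1 : Z (M + 2) - (1 - X ^ (M + 1)) * Z M = 0 := by
    rw [← h]
    unfold Z
    rw [← S_mul (ok_Z M), ← S_sub]
    refine S_congr fun k => ?_
    have h2 : (1 - X ^ (k + 1)) * Rr (k + 1) M = Rr k M * (1 - X ^ (k + 1 + M)) := by
      rw [← Rr_succ', Rr_succ]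
    rw [show M + 2 = M + 1 + 1 by ring, Rr_succ, Rr_succ, tr_succ]
    have e1 : (X : ℤ⟦X⟧) ^ (k + 1 + M) = X ^ k * X ^ M * X := by
      rw [← pow_add, ← pow_succ]; congr 1; ring
    have e2 : (X : ℤ⟦X⟧) ^ (k + 1 + (M + 1)) = X ^ k * X ^ M * X * X := by
      rw [← pow_add, ← pow_succ, ← pow_succ]; congr 1; ring
    have e3 : (X : ℤ⟦X⟧) ^ (tr k + (k + 1)) = X ^ tr k * X ^ k * X := by
      rw [← pow_add, ← pow_succ]; congr 1
    rw [e1] at h2
    rw [e1, e2, e3, pow_succ X M]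
    linear_combination (X ^ M * X * X ^ tr k * X ^ k * X) * h2
  exact sub_eq_zero.mp h1

theorem gauss : psi 1 * E (-1) 0 = E (-1) 0 * E 1 0 * (E 1 0 * E (-1) 0) := by
  have key : ∀ j, Z (2 * j) * E (-1) (2 * j) = E (-1) 0 * E 1 0 * (E 1 j * E (-1) j) := by
    refine uniq (a := fun j => 1 - X ^ (2 * j + 2)) ?_ ?_ ?_
    · intro j
      rw [show 2 * (j + 1) = 2 * j + 2 by ring, Z_succ, E_succ (-1) (2 * j),
        E_succ (-1) (2 * j + 1)]
      ring
    · intro j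
      rw [E_succ 1 j, E_succ (-1) j]
      ring
    · intro j
      have h1 : (X : ℤ⟦X⟧) ^ j ∣ Z (2 * j) * E (-1) (2 * j) - E (-1) 0 * E 1 0 := by
        have e1 : E (-1) 0 * E 1 0 = S fun k => X ^ tr k * E (-1) k := by
          conv_lhs => rw [E.eq_def 1]
          rw [← S_mul (et_ok 1 0)]
          refine S_congr fun k => ?_
          unfold et
          rw [← pp_E (-1) k]
          have h4 : pp (-1) k = qp k := by
            unfold pp qp
            refine prod_congr rfl fun i _ => ?_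
            ring
          rw [h4, zero_mul, add_zero, one_pow]
          have := qp_iq k
          linear_combination (X ^ tr k * E (-1) k) * this
        have e2 : Z (2 * j) * E (-1) (2 * j) - E (-1) 0 * E 1 0
            = Z (2 * j) * (E (-1) (2 * j) - 1)
              - S fun k => X ^ tr k * Rr k (2 * j) * (E (-1) (k + 2 * j) - 1) := by
          have hokk : ok fun k => X ^ tr k * Rr k (2 * j) * (E (-1) (k + 2 * j) - 1) :=
            (ok_Z (2 * j)).mulr _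
          have e3 : (S fun k => X ^ tr k * E (-1) k)
              = (S fun k => X ^ tr k * Rr k (2 * j) * (E (-1) (k + 2 * j) - 1)) + Z (2 * j) := by
            unfold Z
            rw [← S_add]
            refine S_congr fun k => ?_
            rw [Rr_E k (2 * j)]
            ring
          rw [e1, e3]
          ring
        rw [e2]
        refine dvd_sub ?_ (dvd_S fun k => ?_)
        · refine Dvd.dvd.mul_left ((pow_dvd_pow X ?_).trans (E_dvd (-1) (2 * j))) _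
          omega
        · refine Dvd.dvd.mul_left ((pow_dvd_pow X ?_).trans (E_dvd (-1) (k + 2 * j))) _
          omega
      have h2 : (X : ℤ⟦X⟧) ^ j ∣ E 1 j * E (-1) j - 1 := by
        have e : E 1 j * E (-1) j - 1 = (E 1 j - 1) * E (-1) j + (E (-1) j - 1) := by ring
        rw [e]
        exact dvd_add (((pow_dvd_pow X (Nat.le_succ j)).trans (E_dvd 1 j)).mul_right _)
          ((pow_dvd_pow X (Nat.le_succ j)).trans (E_dvd (-1) j))
      have e : Z (2 * j) * E (-1) (2 * j) - E (-1) 0 * E 1 0 * (E 1 j * E (-1) j)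
          = (Z (2 * j) * E (-1) (2 * j) - E (-1) 0 * E 1 0)
            - E (-1) 0 * E 1 0 * (E 1 j * E (-1) j - 1) := by ring
      rw [e]
      exact dvd_sub h1 (Dvd.dvd.mul_left h2 _)
  have h := key 0
  have h1 : Z (2 * 0) = psi 1 := by
    unfold Z psi
    refine S_congr fun k => ?_
    rw [mul_zero, Rr_zero, one_pow]; ring
  rw [h1, mul_zero] at h
  exact h

theorem gauss' : psi 1 = E (-1) 0 * E 1 0 * E 1 0 := by
  refine mul_right_cancel₀ (E_ne_zero (-1) 0) ?_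
  rw [gauss]; ring

end

end Pool.Agent.X13.UC
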