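import Pool.Agent.X13.UC.Id2

/-!
# The series `T_o`
-/

namespace Pool.Agent.X13.UC

open PowerSeries Finset

noncomputable section

/-- `∏_{j<m+1} (1 - q^{2j+1})` -/
def OD (m : ℕ) : ℤ⟦X⟧ := ∏ j ∈ range (m + 1), (1 - X ^ (2 * j + 1))

/-- `m`-th term of `T_o` -/
def term (m : ℕ) : ℤ⟦X⟧ :=
  X ^ (2 * m) * (∏ j ∈ range (2 * m), (1 + X ^ (j + 1))) * PowerSeries.invOfUnit (OD m) 1

theorem OD_const (m : ℕ) : constantCoeff (OD m) = ((1 : ℤˣ) : ℤ) := by
  unfold OD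
  rw [map_prod]
  simp

theorem ok_term : ok term := fun m =>
  ((pow_dvd_pow X (by omega)).mul_right _).mul_right _

/-- `T_o` -/
def To : ℤ⟦X⟧ := S term

/-- `(-1)_N/(q)_N` -/
def bq (N : ℕ) : ℤ⟦X⟧ := (∏ i ∈ range N, (1 + X ^ i)) * iq N

theorem bq_succ (N : ℕ) : (1 - X ^ (N + 1)) * bq (N + 1) = (1 + X ^ N) * bq N := by
  unfold bq
  rw [prod_range_succ]
  have := iq_succ N
  linear_combination ((∏ i ∈ range N, (1 + X ^ i)) * (1 + X ^ N)) * this

/-- terms -/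
def wt (s : ℤ⟦X⟧) (k N : ℕ) : ℤ⟦X⟧ := s ^ N * bq N * X ^ ((k + 1) * N)

theorem ok_wt (s : ℤ⟦X⟧) (k : ℕ) : ok (wt s k) := fun N =>
  (pow_dvd_pow X (Nat.le_mul_of_pos_left N (Nat.succ_pos k))).mul_left _

/-- `(-s q^{k+1})_∞/(s q^{k+1})_∞` -/
def W (s : ℤ⟦X⟧) (k : ℕ) : ℤ⟦X⟧ := S (wt s k)

theorem W_succ (s : ℤ⟦X⟧) (k : ℕ) :
    (1 - s * X ^ (k + 1)) * W s k = (1 + s * X ^ (k + 1)) * W s (k + 1) := by
  have h0 : ok fun j => wt s k j - wt s (k + 1) j := (ok_wt s k).sub (ok_wt s (k + 1))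
  have h1 : W s k - W s (k + 1) = S fun j => wt s k j - wt s (k + 1) j := by
    unfold W; rw [S_sub]
  rw [S_succ h0] at h1
  have h2 : ∀ N, wt s k (N + 1) - wt s (k + 1) (N + 1)
      = (s * X ^ (k + 1)) * (wt s k N + wt s (k + 1) N) := by
    intro N
    unfold wt
    have e1 : (X : ℤ⟦X⟧) ^ ((k + 1) * (N + 1)) = X ^ ((k + 1) * N) * X ^ (k + 1) := by
      rw [← pow_add]; congr 1
    have e2 : (X : ℤ⟦X⟧) ^ ((k + 1 + 1) * (N + 1)) = X ^ ((k + 1) * N) * X ^ (k + 1) * X ^ (N + 1) := by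
      rw [← pow_add, ← pow_add]; congr 1; ring
    have e3 : (X : ℤ⟦X⟧) ^ ((k + 1 + 1) * N) = X ^ ((k + 1) * N) * X ^ N := by
      rw [← pow_add]; congr 1; ring
    have := bq_succ N
    rw [e1, e2, e3, pow_succ s N]
    linear_combination (s ^ N * s * (X ^ ((k + 1) * N) * X ^ (k + 1))) * this
  rw [S_congr h2, S_mul ((ok_wt s k).add (ok_wt s (k + 1))), S_add] at h1
  have h3 : wt s k 0 - wt s (k + 1) 0 = 0 := by simp [wt]
  rw [h3] at h1
  unfold W at h1 ⊢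
  linear_combination h1

theorem W_dvd (s : ℤ⟦X⟧) (k : ℕ) : (X : ℤ⟦X⟧) ^ (k + 1) ∣ W s k - 1 := by
  unfold W
  rw [S_succ (ok_wt s k)]
  have : wt s k 0 = 1 := by simp [wt, bq, iq_zero]
  rw [this, add_sub_cancel_left]
  refine dvd_S fun j => ?_
  unfold wt
  refine Dvd.dvd.mul_left (pow_dvd_pow X ?_) _
  exact Nat.le_mul_of_pos_right _ (Nat.succ_pos j)

theorem EW (s : ℤ⟦X⟧) (k : ℕ) : E (-s) k * W s k = E s k := by
  refine uniq (a := fun k => 1 + s * X ^ (k + 1)) (p := fun k => E (-s) k * W s k)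
    (p' := fun k => E s k) ?_ ?_ ?_ k
  · intro k
    have h := W_succ s k
    rw [E_succ (-s) k]
    linear_combination (E (-s) (k + 1)) * h
  · intro k
    exact E_succ s k
  · intro k
    have e : E (-s) k * W s k - E s k = (E (-s) k - 1) * W s k + (W s k - 1) - (E s k - 1) := by ring
    rw [e]
    refine dvd_sub (dvd_add (Dvd.dvd.mul_right ?_ _) ?_) ?_
    · exact (pow_dvd_pow X (Nat.le_succ k)).trans (E_dvd (-s) k)
    · exact (pow_dvd_pow X (Nat.le_succ k)).trans (W_dvd s k)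
    · exact (pow_dvd_pow X (Nat.le_succ k)).trans (E_dvd s k)

/-- `∑_k q^{kM} (q^{2k+2};q^2)_∞` -/
def D (M : ℕ) : ℤ⟦X⟧ := S fun k => X ^ (k * M) * (E 1 k * E (-1) k)

theorem ok_D (M : ℕ) (hM : 0 < M) : ok fun k => X ^ (k * M) * (E 1 k * E (-1) k) := fun k =>
  (pow_dvd_pow X (Nat.le_mul_of_pos_right k hM)).mul_right _

theorem H_succ (k : ℕ) : E 1 k * E (-1) k = (1 - X ^ (2 * (k + 1))) * (E 1 (k + 1) * E (-1) (k + 1)) := by
  rw [E_succ 1 k, E_succ (-1) k, show 2 * (k + 1) = (k + 1) + (k + 1) by ring, pow_add]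
  ring

theorem D_succ (M : ℕ) (hM : 0 < M) : D (M + 2) = (1 - X ^ M) * D M := by
  have hok : ok fun k => X ^ (k * M) * (E 1 k * E (-1) k) * (1 - X ^ (2 * k)) := (ok_D M hM).mulr _
  have h1 : (S fun k => X ^ (k * M) * (E 1 k * E (-1) k) * (1 - X ^ (2 * k))) = D M - D (M + 2) := by
    unfold D
    rw [← S_sub]
    refine S_congr fun k => ?_
    rw [show k * (M + 2) = k * M + 2 * k by ring, pow_add]
    ring
  have h2 : (S fun k => X ^ (k * M) * (E 1 k * E (-1) k) * (1 - X ^ (2 * k))) = X ^ M * D M := by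
    rw [S_succ hok]
    unfold D
    rw [← S_mul (ok_D M hM)]
    have e : (X : ℤ⟦X⟧) ^ (0 * M) * (E 1 0 * E (-1) 0) * (1 - X ^ (2 * 0)) = 0 := by simp
    rw [e, zero_add]
    refine S_congr fun k => ?_
    rw [H_succ k, show (k + 1) * M = M + k * M by ring, pow_add]
    ring
  linear_combination h1 - h2

theorem D_two : D 2 = 1 := by
  have hok : ok fun k => 1 - (1 - X ^ (2 * k)) * (E 1 k * E (-1) k) := by
    intro k
    rcases k with _ | k
    · simp
    · show (X : ℤ⟦X⟧) ^ (k + 1) ∣ 1 - (1 - X ^ (2 * (k + 1))) * (E 1 (k + 1) * E (-1) (k + 1))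
      rw [← H_succ k]
      have e : 1 - E 1 k * E (-1) k = -((E 1 k - 1) * E (-1) k + (E (-1) k - 1)) := by ring
      rw [e, dvd_neg]
      exact dvd_add ((E_dvd 1 k).mul_right _) (E_dvd (-1) k)
  have h := S_tele hok
  simp only [mul_zero, pow_zero, sub_self, zero_mul, sub_zero] at h
  rw [← h]
  unfold D
  refine S_congr fun k => ?_
  rw [← H_succ k, mul_comm k 2]
  ring

/-- `∏_{i<m} (1 - q^{2i+2})` -/
def PQ (m : ℕ) : ℤ⟦X⟧ := ∏ i ∈ range m, (1 - X ^ (2 * i + 2))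

theorem D_even (m : ℕ) : D (2 * m + 2) = PQ m := by
  induction m with
  | zero => rw [mul_zero, zero_add, D_two]; simp [PQ]
  | succ m ih =>
    rw [show 2 * (m + 1) + 2 = (2 * m + 2) + 2 by ring, D_succ _ (by omega), ih]
    unfold PQ
    rw [prod_range_succ]; ring

theorem PQ_OD (m : ℕ) : PQ m * OD m = qp (2 * m + 1) := by
  induction m with
  | zero => simp [PQ, OD, qp]
  | succ m ih =>
    have h1 : PQ (m + 1) = PQ m * (1 - X ^ (2 * m + 2)) := by unfold PQ; rw [prod_range_succ]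
    have h2 : OD (m + 1) = OD m * (1 - X ^ (2 * (m + 1) + 1)) := by
      unfold OD; rw [prod_range_succ]
    rw [h1, h2, show 2 * (m + 1) + 1 = 2 * m + 1 + 1 + 1 by ring, qp_succ, qp_succ, ← ih]
    ring

theorem bq_term (m : ℕ) : 2 * bq (2 * m + 1) * X ^ (2 * m + 1) * PQ m = (4 * X) * term m := by
  have h1 : OD m * PowerSeries.invOfUnit (OD m) 1 = 1 :=
    PowerSeries.mul_invOfUnit _ _ (OD_const m)
  have h2 := PQ_OD m
  have h3 := qp_iq (2 * m + 1)
  have h4 : iq (2 * m + 1) * PQ m = PowerSeries.invOfUnit (OD m) 1 := by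
    linear_combination (-(iq (2 * m + 1) * PQ m)) * h1
      + (iq (2 * m + 1) * PowerSeries.invOfUnit (OD m) 1) * h2
      + PowerSeries.invOfUnit (OD m) 1 * h3
  unfold term bq
  rw [prod_range_succ' _ (2 * m), ← h4, pow_succ X (2 * m)]
  norm_num
  ring

theorem four_To : (S fun k => X ^ k * (E 1 k * E 1 k)) - (S fun k => X ^ k * (E (-1) k * E (-1) k))
    = (4 * X) * To := by
  rw [← S_sub]
  have h1 : ∀ k, X ^ k * (E 1 k * E 1 k) - X ^ k * (E (-1) k * E (-1) k)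
      = S fun N => (1 - (-1) ^ N) * bq N * X ^ N * (X ^ (k * (N + 1)) * (E 1 k * E (-1) k)) := by
    intro k
    have e1 := EW 1 k
    have e2 := EW (-1) k
    rw [neg_neg] at e2
    have e3 : X ^ k * (E 1 k * E 1 k) - X ^ k * (E (-1) k * E (-1) k)
        = (X ^ k * (E 1 k * E (-1) k)) * (W 1 k - W (-1) k) := by
      linear_combination (-(X ^ k * E 1 k)) * e1 + (X ^ k * E (-1) k) * e2
    rw [e3]
    unfold W
    rw [← S_sub, ← S_mul ((ok_wt 1 k).sub (ok_wt (-1) k))]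
    refine S_congr fun N => ?_
    unfold wt
    rw [show (k + 1) * N = k * N + N by ring, show k * (N + 1) = k * N + k by ring, pow_add, pow_add,
      one_pow]
    ring
  rw [S_congr h1, S_comm]
  have h2 : ∀ N, (S fun k => (1 - (-1) ^ N) * bq N * X ^ N * (X ^ (k * (N + 1)) * (E 1 k * E (-1) k)))
      = (1 - (-1) ^ N) * bq N * X ^ N * D (N + 1) := by
    intro N
    rw [S_mul (ok_D (N + 1) (Nat.succ_pos N))]
    rfl
  rw [S_congr h2]
  have hok : ok fun N => (1 - (-1) ^ N) * bq N * X ^ N * D (N + 1) := fun N =>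
    (Dvd.intro_left _ rfl).mul_right _
  rw [S_odd hok]
  · unfold To
    rw [← S_mul ok_term]
    refine S_congr fun m => ?_
    rw [← bq_term, show 2 * m + 1 + 1 = 2 * m + 2 by ring, D_even, pow_succ, pow_mul]
    norm_num
  · intro m
    rw [pow_mul]; norm_num

/-- the identity for `C` -/
theorem main_id : (2 * X) * (E (-1) 0 * To) = psi 1 * Fs 1 - psi (-1) * Fs (-1) := by
  have h1 := four_To
  rw [sq_sum_pos, sq_sum_neg, ← G_zero', G_zero 1 (by ring)] at h1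
  rw [← penta, gauss']
  have h2 : (2 : ℤ⟦X⟧) ≠ 0 := by
    intro h
    have h3 := congrArg (constantCoeff (R := ℤ)) h
    rw [map_ofNat, map_zero] at h3
    norm_num at h3
  refine mul_left_cancel₀ h2 ?_
  linear_combination (-(E (-1) 0)) * h1

end

end Pool.Agent.X13.UC
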