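import Pool.Agent.X13.TT.Series

/-!
# Formal sums of power series
-/

namespace Pool.Agent.X13.UC

open PowerSeries Finset

noncomputable section

/-- the formal sum `∑_k f k`, meaningful when `X ^ k ∣ f k` -/
def S (f : ℕ → ℤ⟦X⟧) : ℤ⟦X⟧ := PowerSeries.mk fun n => ∑ k ∈ range (n + 1), coeff n (f k)

/-- convergence -/
def ok (f : ℕ → ℤ⟦X⟧) : Prop := ∀ k, (X : ℤ⟦X⟧) ^ k ∣ f k

theorem coeff_S' (f : ℕ → ℤ⟦X⟧) (n : ℕ) : coeff n (S f) = ∑ k ∈ range (n + 1), coeff n (f k) := by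
  unfold S; rw [coeff_mk]

theorem coeff_S {f : ℕ → ℤ⟦X⟧} (h : ok f) {n M : ℕ} (hM : n < M) :
    coeff n (S f) = ∑ k ∈ range M, coeff n (f k) := by
  rw [coeff_S']
  refine sum_subset (range_subset_range.mpr hM) fun k _ hk => ?_
  rw [mem_range, not_lt] at hk
  exact X_pow_dvd_iff.mp (h k) n (by omega)

theorem ok.mul {f : ℕ → ℤ⟦X⟧} (h : ok f) (c : ℕ → ℤ⟦X⟧) : ok fun k => c k * f k :=
  fun k => (h k).mul_left _

theorem ok.mulr {f : ℕ → ℤ⟦X⟧} (h : ok f) (c : ℕ → ℤ⟦X⟧) : ok fun k => f k * c k :=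
  fun k => (h k).mul_right _

theorem ok.add {f g : ℕ → ℤ⟦X⟧} (h : ok f) (h' : ok g) : ok fun k => f k + g k :=
  fun k => dvd_add (h k) (h' k)

theorem ok.sub {f g : ℕ → ℤ⟦X⟧} (h : ok f) (h' : ok g) : ok fun k => f k - g k :=
  fun k => dvd_sub (h k) (h' k)

theorem ok.shift {f : ℕ → ℤ⟦X⟧} (h : ok f) : ok fun k => f (k + 1) :=
  fun k => (pow_dvd_pow _ (Nat.le_succ k)).trans (h (k + 1))

theorem ok_pow {e : ℕ → ℕ} (h : ∀ k, k ≤ e k) : ok fun k => (X : ℤ⟦X⟧) ^ e k :=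
  fun k => pow_dvd_pow _ (h k)

theorem S_congr {f g : ℕ → ℤ⟦X⟧} (h : ∀ k, f k = g k) : S f = S g := by
  rw [show f = g from funext h]

theorem S_add (f g : ℕ → ℤ⟦X⟧) : S (fun k => f k + g k) = S f + S g := by
  ext n
  rw [map_add, coeff_S', coeff_S', coeff_S', ← sum_add_distrib]
  exact sum_congr rfl fun k _ => map_add _ _ _

theorem S_sub (f g : ℕ → ℤ⟦X⟧) : S (fun k => f k - g k) = S f - S g := by
  ext n
  rw [map_sub, coeff_S', coeff_S', coeff_S', ← sum_sub_distrib]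
  exact sum_congr rfl fun k _ => map_sub _ _ _

theorem S_mul {f : ℕ → ℤ⟦X⟧} (h : ok f) (c : ℤ⟦X⟧) : S (fun k => c * f k) = c * S f := by
  ext n
  rw [coeff_mul, coeff_S']
  simp only [coeff_mul]
  rw [sum_comm]
  refine sum_congr rfl fun p hp => ?_
  have hp' := HasAntidiagonal.mem_antidiagonal.mp hp
  rw [coeff_S h (show p.2 < n + 1 by omega), mul_sum]

theorem S_succ {f : ℕ → ℤ⟦X⟧} (h : ok f) : S f = f 0 + S (fun k => f (k + 1)) := by
  ext n
  rw [map_add, coeff_S h (show n < n + 1 + 1 by omega), coeff_S', sum_range_succ', add_comm]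

theorem S_tele {g : ℕ → ℤ⟦X⟧} (h : ok g) : S (fun k => g k - g (k + 1)) = g 0 := by
  rw [S_sub, S_succ h]; ring

theorem S_comm (f : ℕ → ℕ → ℤ⟦X⟧) : S (fun k => S (fun j => f k j)) = S (fun j => S (fun k => f k j)) := by
  ext n
  rw [coeff_S', coeff_S']
  simp only [coeff_S']
  rw [sum_comm]

theorem dvd_S {f : ℕ → ℤ⟦X⟧} {N : ℕ} (h : ∀ k, (X : ℤ⟦X⟧) ^ N ∣ f k) : (X : ℤ⟦X⟧) ^ N ∣ S f := by
  rw [X_pow_dvd_iff]
  intro m hm
  rw [coeff_S']
  exact sum_eq_zero fun k _ => X_pow_dvd_iff.mp (h k) m hm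

theorem ok_S {f : ℕ → ℕ → ℤ⟦X⟧} (h : ∀ k j, (X : ℤ⟦X⟧) ^ k ∣ f k j) : ok fun k => S (fun j => f k j) :=
  fun k => dvd_S (h k)

theorem S_tri {g : ℕ → ℕ → ℤ⟦X⟧} (h : ∀ i j, (X : ℤ⟦X⟧) ^ j ∣ g i j) :
    S (fun j => ∑ i ∈ range (j + 1), g i j) = S (fun i => S (fun m => g i (i + m))) := by
  ext n
  rw [coeff_S', coeff_S']
  simp only [coeff_S', map_sum]
  have h1 : ∀ i ∈ range (n + 1), ∑ m ∈ range (n + 1), coeff n (g i (i + m))
      = ∑ m ∈ range (n + 1 - i), coeff n (g i (i + m)) := by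
    intro i _
    symm
    refine sum_subset (range_subset_range.mpr (by omega)) fun k _ hk => ?_
    rw [mem_range, not_lt] at hk
    exact X_pow_dvd_iff.mp (h i (i + k)) n (by omega)
  rw [sum_congr rfl h1, sum_sigma', sum_sigma']
  refine sum_bij' (fun x _ => ⟨x.2, x.1 - x.2⟩) (fun x _ => ⟨x.1 + x.2, x.1⟩) ?_ ?_ ?_ ?_ ?_
  · rintro ⟨n, j⟩ hx
    simp only [mem_sigma, mem_range] at hx ⊢
    omega
  · rintro ⟨j, k⟩ hx
    simp only [mem_sigma, mem_range] at hx ⊢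
    omega
  · rintro ⟨n, j⟩ hx
    simp only [mem_sigma, mem_range] at hx
    simp only [Sigma.mk.injEq, heq_eq_eq, and_true]
    omega
  · rintro ⟨j, k⟩ hx
    simp only [mem_sigma, mem_range] at hx
    simp only [Sigma.mk.injEq, heq_eq_eq, true_and]
    omega
  · rintro ⟨n, j⟩ hx
    simp only [mem_sigma, mem_range] at hx
    simp only
    rw [show j + (n - j) = n by omega]

/-- summing over odd indices -/
theorem S_odd {f : ℕ → ℤ⟦X⟧} (h : ok f) (h0 : ∀ m, f (2 * m) = 0) :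
    S f = S (fun m => f (2 * m + 1)) := by
  have hs : ∀ M, ∑ k ∈ range (2 * M), f k = ∑ m ∈ range M, f (2 * m + 1) := by
    intro M
    induction M with
    | zero => simp
    | succ M ih =>
      rw [show 2 * (M + 1) = 2 * M + 1 + 1 by ring, sum_range_succ, sum_range_succ, ih, h0,
        sum_range_succ]
      ring
  ext n
  rw [coeff_S h (show n < 2 * (n + 1) by omega), coeff_S', ← map_sum, ← map_sum, hs]

/-- uniqueness of solutions of first order equations -/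
theorem uniq {a p p' : ℕ → ℤ⟦X⟧} (h : ∀ k, p k = a k * p (k + 1)) (h' : ∀ k, p' k = a k * p' (k + 1))
    (hd : ∀ k, (X : ℤ⟦X⟧) ^ k ∣ p k - p' k) (k : ℕ) : p k = p' k := by
  have h1 : ∀ m k, (X : ℤ⟦X⟧) ^ (k + m) ∣ p k - p' k := by
    intro m
    induction m with
    | zero => intro k; exact hd k
    | succ m ih =>
      intro k
      rw [h, h', ← mul_sub]
      refine Dvd.dvd.mul_left ?_ _
      have := ih (k + 1)
      rwa [show k + 1 + m = k + (m + 1) by ring] at this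
  rw [← sub_eq_zero]
  ext n
  rw [map_zero]
  exact X_pow_dvd_iff.mp (h1 (n + 1) k) n (by omega)

end

end Pool.Agent.X13.UC
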